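import Pool.Agent.Helper8K9.DG.Lmul

/-!
# [LDIV] quotients of L-functions
-/

set_option autoImplicit false
set_option linter.unusedSectionVars false

namespace Pool.Agent.Helper8K9.DG

open Pool.Agent.Helper8K9.DC

variable {QA : Type} [Field QA] [CharZero QA] [IsAlgClosed QA] [Algebra.IsAlgebraic ℚ QA]
  {KK : Type} [Field KK] [IsAlgClosed KK]

open Matrix Polynomial Filter Topology NumberField

/-- two meromorphic functions on the plane that agree on a right half plane agree near every point -/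
theorem mero_identity {f g : ℂ → ℂ} (hf : MeromorphicOn f Set.univ)
    (hg : MeromorphicOn g Set.univ) (b : ℝ) (h : ∀ s : ℂ, b < s.re → f s = g s) (z : ℂ) :
    ∀ᶠ s in 𝓝[≠] z, f s = g s := by
  have hfg : MeromorphicOn (f - g) Set.univ := hf.sub hg
  have h0 : meromorphicOrderAt (f - g) ((b + 1 : ℝ) : ℂ) = ⊤ := by
    rw [meromorphicOrderAt_eq_top_iff]
    apply Filter.Eventually.filter_mono nhdsWithin_le_nhds
    have ho : IsOpen {s : ℂ | b < s.re} := isOpen_lt continuous_const Complex.continuous_re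
    filter_upwards [ho.mem_nhds (by
      show b < (((b + 1 : ℝ) : ℂ)).re
      rw [Complex.ofReal_re]; linarith)] with s hs
    show f s - g s = 0
    rw [h s hs, sub_self]
  have h1 : meromorphicOrderAt (f - g) z = ⊤ := by
    by_contra hne
    exact hfg.meromorphicOrderAt_ne_top_of_isPreconnected isPreconnected_univ
      (Set.mem_univ z) (Set.mem_univ ((b + 1 : ℝ) : ℂ)) hne h0
  rw [meromorphicOrderAt_eq_top_iff] at h1
  filter_upwards [h1] with s hs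
  exact sub_eq_zero.1 hs

theorem ldiv (h : (S_LSUM QA KK)) (hi : (S_LISO QA KK)) (hu : (S_LUNI QA KK)) : (S_LDIV QA KK) := by
  intro E _ d M ι m E' _ _ _ n n₁ n₂ _ _ _ _ _ _ ρ ρ₁ ρ₂ A B hAB hBA hA a₁ a₂ ⟨L₁, hL₁, ha₁⟩
    ⟨L₂, hL₂, ha₂⟩ L hL τ
  have hm := isL_mul h M ι ρ ρ₂ hL hL₂
  obtain ⟨Q, hQ, hP⟩ := hm
  obtain ⟨Q₁, hQ₁, hP₁⟩ := hL₁
  have hQQ : Q = Q₁ := by
    funext p
    exact hu E d M E' (n ⊕ n₂) (dsum ρ ρ₂) p _ _ (hQ p)
      (hi E d M E' (n ⊕ n₂) n₁ (dsum ρ ρ₂) ρ₁ A B hAB hBA hA p _ (hQ₁ p))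
  subst hQQ
  obtain ⟨m1, b, hb⟩ := hP τ
  obtain ⟨m2, b', hb'⟩ := hP₁ τ
  have hid := mero_identity m1 m2 (max b b') (fun s hs =>
    (hb s (lt_of_le_of_lt (le_max_left _ _) hs)).unique
      (hb' s (lt_of_le_of_lt (le_max_right _ _) hs))) (m : ℂ)
  have hne : ∀ᶠ s in 𝓝[≠] (m : ℂ), L₂ τ s ≠ 0 := (ha₂ τ).2.eventually_ne (ha₂ τ).1
  have hlim : Tendsto (fun s => L₁ τ s / L₂ τ s) (𝓝[≠] (m : ℂ)) (𝓝 (a₁ τ / a₂ τ)) :=
    (ha₁ τ).2.div (ha₂ τ).2 (ha₂ τ).1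
  refine hlim.congr' ?_
  filter_upwards [hid, hne] with s h1 h2
  rw [← h1]
  field_simp

end Pool.Agent.Helper8K9.DG
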