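import Pool.Agent.Helper8K9.DG.Stm

/-!
# [LISO] local factors of isomorphic representations
-/

set_option autoImplicit false
set_option linter.unusedSectionVars false

namespace Pool.Agent.Helper8K9.DG

open Pool.Agent.Helper8K9.DC

variable {QA : Type} [Field QA] [CharZero QA] [IsAlgClosed QA] [Algebra.IsAlgebraic ℚ QA]
  {KK : Type} [Field KK] [IsAlgClosed KK]

open Matrix Polynomial Filter Topology NumberField

namespace LisoL

variable {E : Type} [Field E] {d : ℕ} (M : Motive QA KK E d) {E' : Type} [Field E'] [Algebra E E']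
  {n n' : Type} [Fintype n] [DecidableEq n] [Fintype n'] [DecidableEq n']

/-- `1 ⊗ A` -/
noncomputable def up (_ : Motive QA KK E d) (p : Nat.Primes) (j : E' →+* KK) (A : Matrix n n' E') :
    Matrix (Fin (2 * d) × n) (Fin (2 * d) × n') KK :=
  kroneckerMap (· * ·) (1 : Matrix (Fin (2 * d)) (Fin (2 * d)) KK) (A.map j)

theorem up_comm (ρ : (QA ≃ₐ[ℚ] QA) →* Matrix n n E') (ρ' : (QA ≃ₐ[ℚ] QA) →* Matrix n' n' E') (A : Matrix n n' E')
    (hA : ∀ γ, ρ γ * A = A * ρ' γ) (p : Nat.Primes) (j : E' →+* KK) (σ : (QA ≃ₐ[ℚ] QA)) :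
    twist M ρ p j σ * up M p j A = up M p j A * twist M ρ' p j σ := by
  unfold twist up
  rw [← Matrix.mul_kronecker_mul, ← Matrix.mul_kronecker_mul, Matrix.mul_one, Matrix.one_mul,
    ← Matrix.map_mul, ← Matrix.map_mul, hA]

theorem up_mul (A : Matrix n n' E') (B : Matrix n' n E') (h : A * B = 1) (p : Nat.Primes)
    (j : E' →+* KK) : up M p j A * up M p j B = 1 := by
  unfold up
  rw [← Matrix.mul_kronecker_mul, Matrix.mul_one, ← Matrix.map_mul, h,
    Matrix.map_one _ (map_zero j) (map_one j)]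
  exact Matrix.one_kronecker_one

theorem up_mem (ρ : (QA ≃ₐ[ℚ] QA) →* Matrix n n E') (ρ' : (QA ≃ₐ[ℚ] QA) →* Matrix n' n' E') (A : Matrix n n' E')
    (hA : ∀ γ, ρ γ * A = A * ρ' γ) (p : Nat.Primes) (j : E' →+* KK) (I : Subgroup (QA ≃ₐ[ℚ] QA))
    (v : Fin (2 * d) × n' → KK) (hv : v ∈ fixedBy (twist M ρ' p j) I) :
    up M p j A *ᵥ v ∈ fixedBy (twist M ρ p j) I := by
  intro σ hσ
  rw [Matrix.mulVec_mulVec, up_comm M ρ ρ' A hA, ← Matrix.mulVec_mulVec, hv σ hσ]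

/-- the isomorphism of the spaces of invariants -/
noncomputable def eqv (ρ : (QA ≃ₐ[ℚ] QA) →* Matrix n n E') (ρ' : (QA ≃ₐ[ℚ] QA) →* Matrix n' n' E') (A : Matrix n n' E')
    (B : Matrix n' n E') (hAB : A * B = 1) (hBA : B * A = 1)
    (hA : ∀ γ, ρ γ * A = A * ρ' γ) (hB : ∀ γ, ρ' γ * B = B * ρ γ) (p : Nat.Primes)
    (j : E' →+* KK) (I : Subgroup (QA ≃ₐ[ℚ] QA)) :
    fixedBy (twist M ρ' p j) I ≃ₗ[KK] fixedBy (twist M ρ p j) I where
  toFun := fun v => ⟨up M p j A *ᵥ v, up_mem M ρ ρ' A hA p j I v v.2⟩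
  map_add' := fun v w => Subtype.ext (Matrix.mulVec_add _ _ _)
  map_smul' := fun a v => Subtype.ext (Matrix.mulVec_smul _ _ _)
  invFun := fun v => ⟨up M p j B *ᵥ v, up_mem M ρ' ρ B hB p j I v v.2⟩
  left_inv := fun v => Subtype.ext (by
    show up M p j B *ᵥ (up M p j A *ᵥ _) = _
    rw [Matrix.mulVec_mulVec, up_mul M B A hBA, Matrix.one_mulVec])
  right_inv := fun v => Subtype.ext (by
    show up M p j A *ᵥ (up M p j B *ᵥ _) = _
    rw [Matrix.mulVec_mulVec, up_mul M A B hAB, Matrix.one_mulVec])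

end LisoL

open LisoL in
theorem liso : (S_LISO QA KK) := by
  intro E _ d M E' _ _ n n' _ _ _ _ ρ ρ' A B hAB hBA hA p Q hQ j hj
  have hB : ∀ γ, ρ' γ * B = B * ρ γ := by
    intro γ
    calc ρ' γ * B = (B * A) * ρ' γ * B := by rw [hBA, Matrix.one_mul]
      _ = B * (A * ρ' γ) * B := by simp only [Matrix.mul_assoc]
      _ = B * (ρ γ * A) * B := by rw [hA]
      _ = B * ρ γ * (A * B) := by simp only [Matrix.mul_assoc]
      _ = B * ρ γ := by rw [hAB, Matrix.mul_one]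
  obtain ⟨T, hT, h⟩ := hQ j hj
  let e := eqv M ρ ρ' A B hAB hBA hA hB p j (M.inertia p)
  refine ⟨e.conj T, fun v => ?_, ?_⟩
  · rw [LinearEquiv.conj_apply_apply]
    show up M p j A *ᵥ ((T (e.symm v) : fixedBy (twist M ρ' p j) (M.inertia p)) :
      Fin (2 * d) × n' → KK) = _
    rw [hT]
    show up M p j A *ᵥ (twist M ρ' p j (M.frob p) *ᵥ (up M p j B *ᵥ _)) = _
    rw [Matrix.mulVec_mulVec, Matrix.mulVec_mulVec, ← up_comm M ρ ρ' A hA, Matrix.mul_assoc,
      up_mul M A B hAB, Matrix.mul_one]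
  · rw [h, LinearEquiv.charpoly_conj]

end Pool.Agent.Helper8K9.DG
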