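import Pool.Agent.Helper8K9.DG.Stm

/-!
# [LUNI] uniqueness of local factors
-/

set_option autoImplicit false
set_option linter.unusedSectionVars false

namespace Pool.Agent.Helper8K9.DG

open Pool.Agent.Helper8K9.DC

variable {QA : Type} [Field QA] [CharZero QA] [IsAlgClosed QA] [Algebra.IsAlgebraic ℚ QA]
  {KK : Type} [Field KK] [IsAlgClosed KK]

open Matrix Polynomial Filter Topology NumberField

theorem luni : (S_LUNI QA KK) := by
  intro E _ d M E' _ _ _ n _ _ ρ p Q Q' hQ hQ'
  letI : Algebra E KK := (M.coeff p).toAlgebra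
  let j : E' →ₐ[E] KK := IsAlgClosed.lift
  have hj : (j : E' →+* KK).comp (algebraMap E E') = M.coeff p := by
    ext x
    exact j.commutes x
  obtain ⟨T, hT, h⟩ := hQ (j : E' →+* KK) hj
  obtain ⟨T', hT', h'⟩ := hQ' (j : E' →+* KK) hj
  have hTT : T = T' := by
    ext1 v
    apply Subtype.ext
    rw [hT, hT']
  subst hTT
  apply Polynomial.map_injective (j : E' →+* KK) (RingHom.injective _)
  rw [h, h']

end Pool.Agent.Helper8K9.DG
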