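import Pool.Agent.Helper8K9.DG.Stm

/-!
# Periods are not zero
-/

set_option autoImplicit false
set_option linter.unusedSectionVars false

namespace Pool.Agent.Helper8K9.DG

open Pool.Agent.Helper8K9.DC

variable {QA : Type} [Field QA] [CharZero QA] [IsAlgClosed QA] [Algebra.IsAlgebraic ℚ QA]
  {KK : Type} [Field KK] [IsAlgClosed KK]

open Matrix Polynomial Filter Topology NumberField

namespace Per

/-- the determinant of the period matrix of a twist -/
theorem det_W {R n : Type} [CommRing R] [Fintype n] [DecidableEq n] {d : ℕ}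
    (P : n → Matrix (Fin d) (Fin d) R) (T : Matrix n n R) :
    det (Matrix.of fun x y : Fin d × n => P y.2 x.1 y.1 * T x.2 y.2) =
      T.det ^ d * ∏ b, (P b).det := by
  have h : (Matrix.of fun x y : Fin d × n => P y.2 x.1 y.1 * T x.2 y.2) =
      kroneckerMap (· * ·) (1 : Matrix (Fin d) (Fin d) R) T * blockDiagonal P := by
    ext x y
    rw [Matrix.of_apply, Matrix.mul_apply, Finset.sum_eq_single (x.1, y.2)]
    · rw [kroneckerMap_apply, Matrix.one_apply_eq, one_mul, blockDiagonal_apply, if_pos rfl,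
        mul_comm]
    · intro z _ hz
      rw [kroneckerMap_apply, blockDiagonal_apply]
      by_cases h1 : x.1 = z.1
      · rw [if_neg, mul_zero]
        intro h2
        exact hz (Prod.ext h1.symm h2)
      · rw [Matrix.one_apply_ne h1, zero_mul, zero_mul]
    · intro h1
      exact absurd (Finset.mem_univ _) h1
  rw [h, det_mul, det_blockDiagonal]
  have h2 := det_kronecker (1 : Matrix (Fin d) (Fin d) R) T
  rw [det_one, one_pow, one_mul, Fintype.card_fin] at h2
  rw [h2]

section

variable {E : Type} [Field E] {d : ℕ} (M : Motive QA KK E d) {E' : Type} [Field E'] [Algebra E E']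
  {n : Type} [Fintype n] [DecidableEq n]

/-- the value of the period -/
theorem det_period (ι : QA →+* ℂ) (ε : ℤˣ) (S : Matrix n n E') (s : n → ℤˣ)
    (X : (E' →+* QA) → Matrix n n QA) (τ : E' →+* QA) :
    det (Matrix.of fun x y : Fin d × n =>
      M.period (ε * s y.2) (τ.comp (algebraMap E E')) x.1 y.1 *
        ((X τ)⁻¹ * S.map τ).map ι x.2 y.2) =
      ι ((X τ).det⁻¹ * τ S.det) ^ d *
        ∏ b, (M.period (ε * s b) (τ.comp (algebraMap E E'))).det := by
  rw [det_W (fun b => M.period (ε * s b) (τ.comp (algebraMap E E')))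
    (((X τ)⁻¹ * S.map τ).map ι)]
  congr 2
  have h1 : (((X τ)⁻¹ * S.map τ).map ι).det = ι ((X τ)⁻¹ * S.map τ).det := by
    rw [← RingHom.mapMatrix_apply, ← RingHom.map_det]
  have h2 : (S.map τ).det = τ S.det := by
    rw [← RingHom.mapMatrix_apply, ← RingHom.map_det]
  rw [h1, det_mul, h2, det_nonsing_inv, Ring.inverse_eq_inv']

end

end Per

open Per

theorem pne : (S_PNE QA KK) := by
  intro E _ d M ι c E' _ _ n _ _ ρ ε Ω h τ
  obtain ⟨S, s, X, hS, hX, hΩ⟩ := h
  rw [hΩ τ, det_period]
  refine mul_ne_zero (pow_ne_zero _ ?_) (Finset.prod_ne_zero_iff.2 fun b _ => M.period_det _ _)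
  rw [Ne, map_eq_zero]
  refine mul_ne_zero (inv_ne_zero (hX.1 τ).ne_zero) ?_
  rw [Ne, map_eq_zero]
  exact hS.1.ne_zero

end Pool.Agent.Helper8K9.DG
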