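import Pool.Agent.Helper8K9.DG.Puni

/-!
# Periods of direct sums and of isomorphic representations
-/

set_option autoImplicit false
set_option linter.unusedSectionVars false

namespace Pool.Agent.Helper8K9.DG

open Pool.Agent.Helper8K9.DC

variable {QA : Type} [Field QA] [CharZero QA] [IsAlgClosed QA] [Algebra.IsAlgebraic ℚ QA]
  {KK : Type} [Field KK] [IsAlgClosed KK]

open Matrix Polynomial Filter Topology NumberField Per

theorem psum : (S_PSUM QA KK) := by
  intro E _ d M ι c E' _ _ n n' _ _ _ _ ρ ρ' ε Ω Ω' h h'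
  obtain ⟨S, s, X, hS, hX, hΩ⟩ := h
  obtain ⟨S', s', X', hS', hX', hΩ'⟩ := h'
  refine ⟨fromBlocks S 0 0 S', Sum.elim s s', fun τ => fromBlocks (X τ) 0 0 (X' τ), ⟨?_, ?_⟩,
    ⟨fun τ => ?_, fun γ τ => ?_⟩, fun τ => ?_⟩
  · rw [det_fromBlocks_zero₂₁]
    exact hS.1.mul hS'.1
  · change fromBlocks (ρ c) 0 0 (ρ' c) * fromBlocks S 0 0 S' = _
    have h1 : diagonal (fun b => (((Sum.elim s s' b : ℤˣ) : ℤ) : E')) =
        fromBlocks (diagonal fun b => (((s b : ℤˣ) : ℤ) : E')) 0 0
          (diagonal fun b => (((s' b : ℤˣ) : ℤ) : E')) := by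
      rw [fromBlocks_diagonal]
      congr 1
      ext b
      cases b <;> rfl
    rw [h1, fromBlocks_multiply, fromBlocks_multiply]
    simp only [Matrix.mul_zero, Matrix.zero_mul, add_zero, zero_add, hS.2, hS'.2]
  · rw [det_fromBlocks_zero₂₁]
    exact (hX.1 τ).mul (hX'.1 τ)
  · change fromBlocks (X (cmp γ τ)) 0 0 (X' (cmp γ τ)) =
      (fromBlocks (ρ γ) 0 0 (ρ' γ)).map (cmp γ τ) * (fromBlocks (X τ) 0 0 (X' τ)).map γ
    rw [fromBlocks_map, fromBlocks_map, fromBlocks_multiply, hX.2, hX'.2]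
    have h0 : ∀ (a b : Type), ((0 : Matrix a b QA).map γ) = 0 := fun a b => by
      ext i j; exact map_zero γ
    have h0' : ∀ (a b : Type), ((0 : Matrix a b E').map (cmp γ τ)) = 0 := fun a b => by
      ext i j; exact map_zero (cmp γ τ)
    simp only [h0, h0', Matrix.mul_zero, Matrix.zero_mul, add_zero, zero_add]
  · change Ω τ * Ω' τ = _
    rw [det_period M ι ε (fromBlocks S 0 0 S') (Sum.elim s s')
      (fun τ => fromBlocks (X τ) 0 0 (X' τ)) τ, hΩ, hΩ', det_period, det_period,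
      det_fromBlocks_zero₂₁, Fintype.prod_sum_type]
    rw [det_fromBlocks_zero₂₁]
    simp only [Sum.elim_inl, Sum.elim_inr, map_mul, mul_inv, mul_pow]
    ring

theorem piso : (S_PISO QA KK) := by
  intro E _ d M ι c E' _ _ _ n n' _ _ _ _ ρ ρ' A B hAB hBA hA ε Ω h
  obtain ⟨S, s, X, hS, hX, hΩ⟩ := h
  have hcard : Fintype.card n = Fintype.card n' := Matrix.square_of_invertible A B hAB hBA
  let e : n ≃ n' := Fintype.equivOfCardEq hcard
  let A₁ : Matrix n n E' := A.submatrix id e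
  have hA₁ : A₁ * B.submatrix e id = 1 := by
    have h1 := Matrix.submatrix_mul_equiv A B (id : n → n) e (id : n → n)
    rw [hAB] at h1
    exact h1
  have hdet : IsUnit A₁.det := Matrix.isUnit_det_of_right_inverse hA₁
  have hρ : ∀ γ, ρ γ * A₁ = A₁ * (ρ' γ).submatrix e e := by
    intro γ
    have h1 := Matrix.submatrix_mul_equiv A (ρ' γ) (id : n → n) e e
    rw [← hA γ] at h1
    have h2 := Matrix.submatrix_mul (ρ γ) A (id : n → n) (id : n → n) e Function.bijective_id
    rw [h2] at h1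
    exact h1.symm
  have hmap : ∀ (γ : (QA ≃ₐ[ℚ] QA)) (P Q : Matrix n n QA), (P * Q).map γ = P.map γ * Q.map γ :=
    fun γ P Q => Matrix.map_mul (f := (γ : QA →ₐ[ℚ] QA).toRingHom)
  refine ⟨A₁ * S.submatrix e e, s ∘ e, fun τ => A₁.map τ * (X τ).submatrix e e, ⟨?_, ?_⟩,
    ⟨fun τ => ?_, fun γ τ => ?_⟩, fun τ => ?_⟩
  · rw [det_mul, det_submatrix_equiv_self]
    exact hdet.mul hS.1
  · have h1 : (diagonal fun b => ((((s ∘ e) b : ℤˣ) : ℤ) : E')) =
        (diagonal fun b => (((s b : ℤˣ) : ℤ) : E')).submatrix e e := by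
      rw [Matrix.submatrix_diagonal_equiv]
      rfl
    have h2 : (ρ' c).submatrix e e * S.submatrix e e =
        S.submatrix e e * (diagonal fun b => (((s b : ℤˣ) : ℤ) : E')).submatrix e e := by
      rw [Matrix.submatrix_mul_equiv, Matrix.submatrix_mul_equiv, hS.2]
    rw [h1, ← Matrix.mul_assoc, hρ, Matrix.mul_assoc, h2, Matrix.mul_assoc]
  · rw [det_mul, det_submatrix_equiv_self]
    have h1 : (A₁.map τ).det = τ A₁.det := by
      rw [← RingHom.mapMatrix_apply, ← RingHom.map_det]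
    rw [h1]
    exact (hdet.map τ).mul (hX.1 τ)
  · change A₁.map (cmp γ τ) * (X (cmp γ τ)).submatrix e e =
      (ρ γ).map (cmp γ τ) * (A₁.map τ * (X τ).submatrix e e).map γ
    have h1 : (X (cmp γ τ)).submatrix e e =
        ((ρ' γ).submatrix e e).map (cmp γ τ) * ((X τ).submatrix e e).map γ := by
      rw [hX.2 γ τ, ← Matrix.submatrix_mul_equiv _ _ e e e]
      rfl
    rw [h1, ← Matrix.mul_assoc, ← Matrix.map_mul, ← hρ, Matrix.map_mul, Matrix.mul_assoc, hmap]
    rfl
  · rw [det_period M ι ε (A₁ * S.submatrix e e) (s ∘ e)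
      (fun τ => A₁.map τ * (X τ).submatrix e e) τ, hΩ, det_period]
    have h1 : (A₁.map τ).det = τ A₁.det := by
      rw [← RingHom.mapMatrix_apply, ← RingHom.map_det]
    have h2 : τ A₁.det ≠ 0 := by
      rw [Ne, map_eq_zero]
      exact hdet.ne_zero
    have h3 : ((A₁.map τ * (X τ).submatrix e e).det)⁻¹ * τ (A₁ * S.submatrix e e).det =
        ((X τ).det)⁻¹ * τ S.det := by
      rw [det_mul, det_mul, det_submatrix_equiv_self, det_submatrix_equiv_self, h1, map_mul,
        mul_inv]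
      field_simp
    rw [h3]
    congr 1
    exact (Equiv.prod_comp e fun b =>
      (M.period (ε * s b) (τ.comp (algebraMap E E'))).det).symm

end Pool.Agent.Helper8K9.DG
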