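import Pool.Agent.Helper8K9.DG.Pne

/-!
# Periods are unique up to the multiplicative group of the coefficient field
-/

set_option autoImplicit false
set_option linter.unusedSectionVars false

namespace Pool.Agent.Helper8K9.DG

open Pool.Agent.Helper8K9.DC

variable {QA : Type} [Field QA] [CharZero QA] [IsAlgClosed QA] [Algebra.IsAlgebraic ℚ QA]
  {KK : Type} [Field KK] [IsAlgClosed KK]

open Matrix Polynomial Filter Topology NumberField

namespace Per

theorem cmp_apply {E : Type} [Field E] (γ : (QA ≃ₐ[ℚ] QA)) (τ : E →+* QA) (x : E) :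
    cmp γ τ x = γ (τ x) := rfl

/-- two embeddings of a number field are conjugate -/
theorem exists_cmp {E' : Type} [Field E'] [NumberField E'] (τ₀ τ : E' →+* QA) :
    ∃ γ : (QA ≃ₐ[ℚ] QA), cmp γ τ₀ = τ := by
  let f₀ : E' →ₐ[ℚ] QA := τ₀.toRatAlgHom
  let K : IntermediateField ℚ QA := f₀.fieldRange
  let g : E' →ₐ[ℚ] K := f₀.codRestrict K.toSubalgebra fun x => ⟨x, rfl⟩
  have hg : Function.Bijective g := by
    refine ⟨fun x y h => f₀.toRingHom.injective (congrArg Subtype.val h), ?_⟩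
    rintro ⟨_, x, rfl⟩
    exact ⟨x, rfl⟩
  let e : E' ≃ₐ[ℚ] K := AlgEquiv.ofBijective g hg
  obtain ⟨γ, hγ⟩ := exists_extend K ((τ.toRatAlgHom).comp e.symm.toAlgHom)
  refine ⟨γ, RingHom.ext fun x => ?_⟩
  have h1 := hγ (e x)
  have h2 : (τ.toRatAlgHom).comp e.symm.toAlgHom (e x) = τ x := by
    change τ (e.symm (e x)) = τ x
    rw [e.symm_apply_apply]
  rw [h2] at h1
  exact h1

theorem exists_emb (E' : Type) [Field E'] [NumberField E'] : Nonempty (E' →+* QA) := by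
  have h : Nonempty (E' →ₐ[ℚ] QA) := ⟨IsAlgClosed.lift⟩
  obtain ⟨f⟩ := h
  exact ⟨f.toRingHom⟩

/-- a Galois equivariant family of algebraic numbers is given by an element of the field -/
theorem fixed_desc {E' : Type} [Field E'] [NumberField E'] (y : (E' →+* QA) → QA)
    (h : ∀ γ τ, y (cmp γ τ) = γ (y τ)) : ∃ e : E', ∀ τ, y τ = τ e := by
  obtain ⟨τ₀⟩   := exists_emb (QA := QA) E'
  let f₀ : E' →ₐ[ℚ] QA := τ₀.toRatAlgHom
  let K : IntermediateField ℚ QA := f₀.fieldRange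
  have hy : y τ₀ ∈ IntermediateField.fixedField K.fixingSubgroup := by
    rw [IntermediateField.mem_fixedField_iff]
    intro γ hγ
    rw [← h]
    congr 1
    exact RingHom.ext fun x =>
      (IntermediateField.mem_fixingSubgroup_iff K γ).1 hγ _ ⟨x, rfl⟩
  rw [InfiniteGalois.fixedField_fixingSubgroup] at hy
  obtain ⟨e, he⟩ := hy
  refine ⟨e, fun τ => ?_⟩
  obtain ⟨γ, rfl⟩ := exists_cmp τ₀ τ
  rw [h, ← he]
  rfl

theorem prod_sign {n : Type} [Fintype n] (s s' : n → ℤˣ)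
    (h : ∑ b, ((s b : ℤˣ) : ℤ) = ∑ b, ((s' b : ℤˣ) : ℤ)) (f : ℤˣ → ℂ) :
    ∏ b, f (s b) = ∏ b, f (s' b) := by
  classical
  have key : ∀ s : n → ℤˣ, ∏ b, f (s b) =
      f 1 ^ (Finset.univ.filter fun b => s b = 1).card *
        f (-1) ^ (Finset.univ.filter fun b => ¬ s b = 1).card := by
    intro s
    rw [← Finset.prod_const, ← Finset.prod_const, ← Finset.prod_filter_mul_prod_filter_not
      Finset.univ (fun b => s b = 1)]
    congr 1
    · exact Finset.prod_congr rfl fun b hb => by rw [(Finset.mem_filter.1 hb).2]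
    · refine Finset.prod_congr rfl fun b hb => ?_
      rcases Int.units_eq_one_or (s b) with h1 | h1
      · exact absurd h1 (Finset.mem_filter.1 hb).2
      · rw [h1]
  have key2 : ∀ s : n → ℤˣ, ∑ b, ((s b : ℤˣ) : ℤ) =
      (Finset.univ.filter fun b => s b = 1).card -
        (Finset.univ.filter fun b => ¬ s b = 1).card := by
    intro s
    rw [← Finset.sum_filter_add_sum_filter_not Finset.univ (fun b => s b = 1)]
    have h1 : ∑ b ∈ Finset.univ.filter (fun b => s b = 1), ((s b : ℤˣ) : ℤ) =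
        ((Finset.univ.filter fun b => s b = 1).card : ℤ) := by
      rw [Finset.sum_congr rfl fun b hb => by rw [(Finset.mem_filter.1 hb).2, Units.val_one],
        Finset.sum_const, nsmul_eq_mul, mul_one]
    have h2 : ∑ b ∈ Finset.univ.filter (fun b => ¬ s b = 1), ((s b : ℤˣ) : ℤ) =
        -((Finset.univ.filter fun b => ¬ s b = 1).card : ℤ) := by
      have h3 : ∀ b ∈ Finset.univ.filter (fun b => ¬ s b = 1), ((s b : ℤˣ) : ℤ) = -1 := by
        intro b hb
        rcases Int.units_eq_one_or (s b) with h1 | h1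
        · exact absurd h1 (Finset.mem_filter.1 hb).2
        · rw [h1]; rfl
      rw [Finset.sum_congr rfl h3, Finset.sum_const, nsmul_eq_mul, mul_neg, mul_one]
    rw [h1, h2]
    ring
  have key3 : ∀ s : n → ℤˣ, (Finset.univ.filter fun b => s b = 1).card +
      (Finset.univ.filter fun b => ¬ s b = 1).card = Fintype.card n := fun s => by
    rw [Finset.card_filter_add_card_filter_not, Finset.card_univ]
  rw [key2, key2] at h
  have h1 := key3 s
  have h2 := key3 s'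
  rw [key s, key s']
  congr 2 <;> omega

section

variable {E' : Type} [Field E'] {n : Type} [Fintype n] [DecidableEq n]

theorem trace_eq {c : (QA ≃ₐ[ℚ] QA)} {ρ : (QA ≃ₐ[ℚ] QA) →* Matrix n n E'} {S : Matrix n n E'} {s : n → ℤˣ}
    (h : IsBettiBasis c ρ S s) : (ρ c).trace = ((∑ b, ((s b : ℤˣ) : ℤ) : ℤ) : E') := by
  have h1 : ρ c = S * diagonal (fun b => (((s b : ℤˣ) : ℤ) : E')) * S⁻¹ := by
    rw [← h.2, Matrix.mul_assoc, Matrix.mul_nonsing_inv _ h.1, Matrix.mul_one]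
  rw [h1, Matrix.trace_mul_comm, ← Matrix.mul_assoc, Matrix.nonsing_inv_mul _ h.1, Matrix.one_mul,
    Matrix.trace_diagonal, Int.cast_sum]

theorem prod_det [CharZero E'] {c : (QA ≃ₐ[ℚ] QA)} {ρ : (QA ≃ₐ[ℚ] QA) →* Matrix n n E'} {S S' : Matrix n n E'}
    {s s' : n → ℤˣ} (h : IsBettiBasis c ρ S s) (h' : IsBettiBasis c ρ S' s') (f : ℤˣ → ℂ) :
    ∏ b, f (s b) = ∏ b, f (s' b) := by
  apply prod_sign
  have h1 := trace_eq h
  rw [trace_eq h'] at h1
  exact (Int.cast_injective h1).symm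

theorem det_rho_ne (ρ : (QA ≃ₐ[ℚ] QA) →* Matrix n n E') (γ : (QA ≃ₐ[ℚ] QA)) : (ρ γ).det ≠ 0 := by
  have h : ρ γ * ρ γ⁻¹ = 1 := by rw [← map_mul, mul_inv_cancel, map_one]
  intro h0
  have h1 := congrArg det h
  rw [det_mul, h0, zero_mul, det_one] at h1
  exact zero_ne_one h1

theorem det_deRham {ρ : (QA ≃ₐ[ℚ] QA) →* Matrix n n E'} {X : (E' →+* QA) → Matrix n n QA}
    (h : IsDeRhamBasis ρ X) (γ : (QA ≃ₐ[ℚ] QA)) (τ : E' →+* QA) :
    (X (cmp γ τ)).det = cmp γ τ (ρ γ).det * γ (X τ).det := by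
  have h1 : ((ρ γ).map (cmp γ τ)).det = cmp γ τ (ρ γ).det := by
    rw [← RingHom.mapMatrix_apply, ← RingHom.map_det]
  have h2 : ((X τ).map γ).det = γ (X τ).det := by
    have := RingHom.map_det (γ : QA →ₐ[ℚ] QA).toRingHom (X τ)
    exact this.symm
  rw [h.2 γ τ, det_mul, h1, h2]

end

end Per

open Per

theorem puni : (S_PUNI QA KK) := by
  intro E _ d M ι c E' _ _ _ n _ _ ρ ε Ω Ω' h h'
  obtain ⟨S, s, X, hS, hX, hΩ⟩ := h
  obtain ⟨S', s', X', hS', hX', hΩ'⟩ := h'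
  have hy : ∀ γ τ, (X' (cmp γ τ)).det / (X (cmp γ τ)).det = γ ((X' τ).det / (X τ).det) := by
    intro γ τ
    rw [det_deRham hX, det_deRham hX', map_div₀, mul_div_mul_left]
    rw [Ne, map_eq_zero]
    exact det_rho_ne ρ γ
  obtain ⟨e₁, he₁⟩ := fixed_desc (fun τ => (X' τ).det / (X τ).det) hy
  have hS0 := hS.1.ne_zero
  have hS0' := hS'.1.ne_zero
  have he0 : e₁ ≠ 0 := by
    rintro rfl
    obtain ⟨τ⟩   := exists_emb (QA := QA) E'
    have h1 := he₁ τ
    rw [map_zero] at h1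
    exact div_ne_zero (hX'.1 τ).ne_zero (hX.1 τ).ne_zero h1
  refine ⟨(e₁ * (S.det / S'.det)) ^ d, pow_ne_zero _ (mul_ne_zero he0 (div_ne_zero hS0 hS0')), ?_⟩
  intro τ
  rw [hΩ τ, hΩ' τ, det_period, det_period,
    prod_det hS hS' fun u => (M.period (ε * u) (τ.comp (algebraMap E E'))).det, ← mul_assoc]
  congr 1
  rw [map_pow, map_pow, ← mul_pow, ← map_mul]
  congr 2
  have h1 := he₁ τ
  rw [map_mul, ← h1, map_div₀]
  have a1 := (hX.1 τ).ne_zero
  have a2 := (hX'.1 τ).ne_zero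
  have a3 : τ S'.det ≠ 0 := by rwa [Ne, map_eq_zero]
  field_simp

end Pool.Agent.Helper8K9.DG
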