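import Pool.Agent.Helper8K9.DG.Stm

set_option autoImplicit false
set_option linter.unusedSectionVars false

namespace Pool.Agent.Helper8K9.DG

open Pool.Agent.Helper8K9.DC

variable {QA : Type} [Field QA] [CharZero QA] [IsAlgClosed QA] [Algebra.IsAlgebraic ℚ QA]
  {KK : Type} [Field KK] [IsAlgClosed KK]

theorem isGalois : IsGalois ℚ QA := IsAlgClosure.isGalois ℚ QA

/-- the subgroup `H` contains the Galois group of a number field -/
theorem fixing_fixed {H : Subgroup (QA ≃ₐ[ℚ] QA)} {F : IntermediateField ℚ QA} [FiniteDimensional ℚ F]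
    (h : F.fixingSubgroup ≤ H) : (IntermediateField.fixedField H).fixingSubgroup = H := by
  have hG : IsGalois ℚ QA := isGalois
  have h1 : IsOpen (H : Set (QA ≃ₐ[ℚ] QA)) := Subgroup.isOpen_mono h F.fixingSubgroup_isOpen
  have h2 : IsClosed (H : Set (QA ≃ₐ[ℚ] QA)) := Subgroup.isClosed_of_isOpen H h1
  exact InfiniteGalois.fixingSubgroup_fixedField ⟨H, h2⟩

theorem fixed_le {H : Subgroup (QA ≃ₐ[ℚ] QA)} {F : IntermediateField ℚ QA}
    (h : F.fixingSubgroup ≤ H) : IntermediateField.fixedField H ≤ F := by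
  have hG : IsGalois ℚ QA := isGalois
  rw [← InfiniteGalois.fixedField_fixingSubgroup F]
  exact IntermediateField.fixedField_antitone h

theorem cor : (S_COR QA) := by
  rintro Ω G _ π ⟨F, hF, hFΩ, h⟩ U
  have h1 : F.fixingSubgroup ≤ U.comap π := by
    intro γ hγ
    rw [Subgroup.mem_comap, h γ hγ]
    exact U.one_mem
  refine ⟨IntermediateField.fixedField (U.comap π), ?_, (fixed_le h1).trans hFΩ, fixing_fixed h1⟩
  exact Module.Finite.of_injective (IntermediateField.inclusion (fixed_le h1)).toLinearMap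
    (IntermediateField.inclusion (fixed_le h1)).injective

end Pool.Agent.Helper8K9.DG
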