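import Pool.Agent.Helper8K9.DG.Good
import Pool.Agent.Helper8K9.DC.Rel
import Pool.Agent.R389.Del

/-!
# The differences of monomial representations with the same signs
-/

set_option autoImplicit false
set_option linter.unusedSectionVars false

namespace Pool.Agent.Helper8K9.DG

open Pool.Agent.Helper8K9.DC

variable {QA : Type} [Field QA] [CharZero QA] [IsAlgClosed QA] [Algebra.IsAlgebraic ℚ QA]
  {KK : Type} [Field KK] [IsAlgClosed KK]

open Matrix Polynomial Filter Topology NumberField Pool.Agent.R389 Pool.Agent.H541R3.ART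

/-- fixing subgroups reverse inclusions -/
theorem le_of_fixing {K L : IntermediateField ℚ QA} (h : L.fixingSubgroup ≤ K.fixingSubgroup) :
    K ≤ L := by
  have h1 := InfiniteGalois.fixedField_fixingSubgroup K
  have h2 := InfiniteGalois.fixedField_fixingSubgroup L
  rw [← h1, ← h2]
  exact IntermediateField.fixedField_antitone h

section
variable {E' : Type} [Field E'] {G : Type} [Group G] {π : (QA ≃ₐ[ℚ] QA) →* G} {Ω₀ : IntermediateField ℚ QA}

theorem pull_finite (hπ : IsFinite Ω₀ π) {U : Subgroup G} {K : IntermediateField ℚ QA}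
    (hK : K.fixingSubgroup = U.comap π) (ψ : U →* E'ˣ) : IsFiniteOver K (pull hK ψ) := by
  obtain ⟨F, hF, -, h⟩ := hπ
  refine ⟨F, hF, fun γ hγ => ?_⟩
  have h1 : π γ = 1 := h γ hγ
  change ψ ⟨π γ, _⟩ = 1
  have h2 : (⟨π γ, Subgroup.mem_comap.mp (hK.le γ.2)⟩ : U) = 1 := Subtype.ext h1
  rw [h2, map_one]

open Classical in
/-- the induced representation has finite image -/
theorem induced_finite (hπ : IsFinite Ω₀ π) {U : Subgroup G} {K : IntermediateField ℚ QA}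
    [FiniteDimensional ℚ K] (hK : K.fixingSubgroup = U.comap π) (ψ : U →* E'ˣ) :
    IsFinite ⊤ (induced K (pull hK ψ)) := by
  obtain ⟨F, hF, -, h⟩ := hπ
  refine ⟨F, hF, le_top, fun γ hγ => ?_⟩
  have h1 : π γ = 1 := h γ hγ
  ext τ τ'
  change inducedMatrix K (pull hK ψ) γ τ τ' = _
  rw [inducedMatrix, Matrix.of_apply]
  by_cases hτ : τ = τ'
  · subst hτ
    have h2 : π ((extend K τ)⁻¹ * γ * extend K τ) = 1 := by
      rw [map_mul, map_mul, h1, mul_one, ← map_mul, inv_mul_cancel, map_one]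
    have h3 : (extend K τ)⁻¹ * γ * extend K τ ∈ K.fixingSubgroup := by
      rw [hK, Subgroup.mem_comap, h2]
      exact U.one_mem
    rw [dif_pos h3, Matrix.one_apply_eq]
    have h4 : pull hK ψ ⟨_, h3⟩ = 1 := by
      change ψ ⟨π ((extend K τ)⁻¹ * γ * extend K τ), _⟩ = 1
      have h5 : (⟨π ((extend K τ)⁻¹ * γ * extend K τ), Subgroup.mem_comap.mp (hK.le h3)⟩ : U)
        = 1 := Subtype.ext h2
      rw [h5, map_one]
    rw [h4, Units.val_one]
  · rw [Matrix.one_apply_ne hτ, dif_neg]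
    intro h3
    rw [hK, Subgroup.mem_comap, map_mul, map_mul, h1, mul_one, ← map_mul, ← Subgroup.mem_comap,
      ← hK] at h3
    have h4 : (extend K τ)⁻¹ * 1 * extend K τ' ∈ K.fixingSubgroup := by rwa [mul_one]
    rw [mem_fixing] at h4
    exact hτ (AlgHom.ext fun x => (h4 x).symm)

/-- the fields that occur are solvable over totally real fields -/
theorem solvable_over (hCO : (S_COR QA)) (c : (QA ≃ₐ[ℚ] QA)) (hπ : IsFinite Ω₀ π)
    (C H U : Subgroup G) [C.Normal] (hcC : π c ∈ C) (hCH : C ≤ H) (hUH : U ≤ H)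
    (hH : Group.IsSolvable H) (K : IntermediateField ℚ QA) (hK : K.fixingSubgroup = U.comap π) :
    IsSolvableOverReal c K := by
  obtain ⟨K₀, -, -, hK₀⟩ := hCO Ω₀ G π hπ H
  obtain ⟨F, hF, -, hF'⟩ := hCO Ω₀ G π hπ ⊥
  refine ⟨K₀, F, le_of_fixing ?_, le_of_fixing ?_, hF, fun g => ?_, ?_⟩
  · rw [hK, hK₀]
    exact Subgroup.comap_mono hUH
  · rw [hK, hF']
    exact Subgroup.comap_mono bot_le
  · rw [hK₀, Subgroup.mem_comap, map_mul, map_mul, map_inv]
    exact hCH ((inferInstance : C.Normal).conj_mem _ hcC _)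
  · have hn : (F.fixingSubgroup.subgroupOf K₀.fixingSubgroup).Normal := by
      have h1 : F.fixingSubgroup = π.ker := by rw [hF']; rfl
      rw [h1]
      infer_instance
    refine ⟨hn, ?_⟩
    let φ : K₀.fixingSubgroup ⧸ F.fixingSubgroup.subgroupOf K₀.fixingSubgroup →* H :=
      QuotientGroup.lift _ ((π.comp K₀.fixingSubgroup.subtype).codRestrict H fun x =>
        Subgroup.mem_comap.mp (hK₀.le x.2)) (by
          intro x hx
          rw [MonoidHom.mem_ker]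
          apply Subtype.ext
          have h1 : (x : (QA ≃ₐ[ℚ] QA)) ∈ F.fixingSubgroup := Subgroup.mem_subgroupOf.mp hx
          rw [hF', Subgroup.mem_comap, Subgroup.mem_bot] at h1
          exact h1)
    refine Group.isSolvable_of_isSolvable_injective (f := φ) ?_
    rw [← MonoidHom.ker_eq_bot_iff, eq_bot_iff]
    intro x hx
    obtain ⟨y, rfl⟩ := QuotientGroup.mk_surjective x
    rw [MonoidHom.mem_ker] at hx
    have h1 : π (y : (QA ≃ₐ[ℚ] QA)) = 1 := congrArg Subtype.val hx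
    rw [Subgroup.mem_bot, QuotientGroup.eq_one_iff, Subgroup.mem_subgroupOf, hF',
      Subgroup.mem_comap, h1]
    exact Subgroup.one_mem _

end

section

variable {E : Type} [Field E] {d : ℕ} (M : Motive QA KK E d) (ι : QA →+* ℂ) (c : (QA ≃ₐ[ℚ] QA)) (m : ℤ)
  {E' : Type} [Field E'] [NumberField E'] [Algebra E E'] {G : Type} [Group G] [Finite G]
  {π : (QA ≃ₐ[ℚ] QA) →* G} {Ω₀ : IntermediateField ℚ QA}

theorem good_diff (hPX : (S_PEX QA KK)) (hCR : (S_CHR QA)) (hCO : (S_COR QA)) (hcc : c * c = 1)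
    (hab : AbelianTwists M ι c m) (hπs : Function.Surjective π) (hπ : IsFinite Ω₀ π)
    (C H U : Subgroup G) [C.Normal] (hcC : π c ∈ C) (hCH : C ≤ H) (hUH : U ≤ H)
    (hH : Group.IsSolvable H) (ψ ψ' : U →* E'ˣ)
    (hs : ∀ (g : G) (h : g * π c * g⁻¹ ∈ U), ψ ⟨_, h⟩ = ψ' ⟨_, h⟩) :
    Good M ι c m (fun γ => ind U (fun u => ((ψ u : E'ˣ) : E')) (π γ)
      - ind U (fun u => ((ψ' u : E'ˣ) : E')) (π γ)) := by
  classical
  obtain ⟨K, hKf, -, hK⟩ := hCO Ω₀ G π hπ U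
  have hso := solvable_over hCO c hπ C H U hcC hCH hUH hH K hK
  obtain ⟨⟨L, hL, hLa⟩, h2⟩ := hab E' K hso (pull hK ψ) (pull_finite hπ hK ψ)
  obtain ⟨⟨L', hL', hLa'⟩, -⟩ := hab E' K hso (pull hK ψ') (pull_finite hπ hK ψ')
  choose a ha0 ha using hLa
  choose a' ha0' ha' using hLa'
  have hfin := induced_finite hπ hK ψ
  have hfin' := induced_finite hπ hK ψ'
  obtain ⟨Ω, hΩ⟩ := hPX E d M ι c hcc E' (K →ₐ[ℚ] QA) ⊤ (induced K (pull hK ψ)) ((-1) ^ m) hfin
  obtain ⟨Ω', hΩ'⟩ := hPX E d M ι c hcc E' (K →ₐ[ℚ] QA) ⊤ (induced K (pull hK ψ')) ((-1) ^ m)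
    hfin'
  obtain ⟨e, he, h3⟩ := h2 (pull hK ψ') (pull_finite hπ hK ψ') (by
    intro g h
    have h4 : π g * π c * (π g)⁻¹ ∈ U := by
      rw [hK, Subgroup.mem_comap, map_mul, map_mul, map_inv] at h
      exact h
    have h5 := hs (π g) h4
    change ψ ⟨π (g * c * g⁻¹), _⟩ = ψ' ⟨π (g * c * g⁻¹), _⟩
    have h6 : (⟨π (g * c * g⁻¹), Subgroup.mem_comap.mp (hK.le h)⟩ : U)
        = ⟨π g * π c * (π g)⁻¹, h4⟩ := Subtype.ext (by
      change π (g * c * g⁻¹) = _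
      rw [map_mul, map_mul, map_inv])
    rw [h6, h5]) L L' Ω Ω' hL hL' hΩ hΩ'
  refine ⟨K →ₐ[ℚ] QA, K →ₐ[ℚ] QA, inferInstance, inferInstance, inferInstance, inferInstance,
    induced K (pull hK ψ), induced K (pull hK ψ'), hfin, hfin',
    ⟨a, a', Ω, Ω', ⟨L, hL, fun τ => ⟨ha0 τ, ha τ⟩⟩, ⟨L', hL', fun τ => ⟨ha0' τ, ha' τ⟩⟩, hΩ, hΩ', e,
      he, fun τ => ?_⟩, fun γ => ?_⟩
  · have h4 := h3 τ (a τ) (a' τ) (ha τ) (ha' τ)
    linear_combination (pw d m (Fintype.card (K →ₐ[ℚ] QA))) * h4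
  · change _ = (inducedMatrix K (pull hK ψ) γ).trace - (inducedMatrix K (pull hK ψ') γ).trace
    rw [hCR E' G π hπs U K hK ψ γ, hCR E' G π hπs U K hK ψ' γ]

/-- the functions in `SGS` are good -/
theorem good_of_sgs (hPX : (S_PEX QA KK)) (hCR : (S_CHR QA)) (hCO : (S_COR QA)) (hLM : (S_LMUL QA KK)) (hPS : (S_PSUM QA KK))
    (hcc : c * c = 1)
    (hab : AbelianTwists M ι c m) (hπs : Function.Surjective π) (hπ : IsFinite Ω₀ π)
    (S : Sig G) (w₀ : S.P) (hκ : S.κ w₀ = π c)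
    (C : Subgroup G) [C.Normal] (hcC : π c ∈ C) (hC : Group.IsSolvable C) (τ₀ : E' →+* ℂ) {ζ : E'}
    (hζ : IsPrimitiveRoot ζ (Monoid.exponent G)) (f : G → ℂ) (hf : f ∈ SGS S C) :
    ∃ g : (QA ≃ₐ[ℚ] QA) → E', Good M ι c m g ∧ ∀ γ, τ₀ (g γ) = f (π γ) := by
  classical
  unfold SGS at hf
  induction hf using AddSubgroup.closure_induction with
  | mem x hx =>
    obtain ⟨H, U, ψ, ψ', hCH, hUH, hH, hs, rfl⟩ := hx
    obtain ⟨φ, hφ⟩ := lift_char hζ τ₀ U ψ
    obtain ⟨φ', hφ'⟩ := lift_char hζ τ₀ U ψ'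
    refine ⟨_, good_diff M ι c m hPX hCR hCO hcc hab hπs hπ C H U hcC hCH hUH hH φ φ'
      (fun g h => ?_), fun γ => ?_⟩
    · have h1 : S.κ (S.act g w₀) = g * π c * g⁻¹ := by rw [S.conj, hκ]
      have h2 : S.κ (S.act g w₀) ∈ U := by rw [h1]; exact h
      have h3 := hs (S.act g w₀) h2
      have h4 : (⟨S.κ (S.act g w₀), h2⟩ : U) = ⟨g * π c * g⁻¹, h⟩ := Subtype.ext h1
      rw [h4] at h3
      apply Units.ext
      apply τ₀.injective
      rw [hφ, hφ', h3]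
    · rw [map_sub, ind_map, ind_map, Pi.sub_apply]
      simp only [hφ, hφ']
      rfl
  | zero =>
    refine ⟨_, good_diff M ι c m hPX hCR hCO hcc hab hπs hπ C C C hcC le_rfl le_rfl hC 1 1
      (fun g h => rfl), fun γ => ?_⟩
    rw [sub_self, map_zero]
    rfl
  | add x y _ _ hx hy =>
    obtain ⟨g, hg, hg'⟩ := hx
    obtain ⟨h, hh, hh'⟩ := hy
    refine ⟨g + h, hg.add M ι c m hLM hPS hh, fun γ => ?_⟩
    rw [Pi.add_apply, map_add, hg', hh', Pi.add_apply]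
  | neg x _ hx =>
    obtain ⟨g, hg, hg'⟩ := hx
    refine ⟨-g, hg.neg, fun γ => ?_⟩
    rw [Pi.neg_apply, map_neg, hg', Pi.neg_apply]

end

end Pool.Agent.Helper8K9.DG
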