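import Pool.Agent.Helper8K9.DG.Stm

/-!
# More statements
-/

set_option autoImplicit false
set_option linter.unusedSectionVars false

namespace Pool.Agent.Helper8K9.DG

open Pool.Agent.Helper8K9.DC

variable {QA : Type} [Field QA] [CharZero QA] [IsAlgClosed QA] [Algebra.IsAlgebraic ℚ QA]
  {KK : Type} [Field KK] [IsAlgClosed KK]

open Matrix Polynomial Filter Topology NumberField Pool.Agent.R389 Pool.Agent.H541R3.ART

/-- [RICH2] as (S_RICH QA), with `N` of exponent two -/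
def S_RICH2 (QA : Type) [Field QA] [CharZero QA] [IsAlgClosed QA]
    [Algebra.IsAlgebraic ℚ QA] : Prop := ∀ (ι : QA →+* ℂ) (c : (QA ≃ₐ[ℚ] QA)), (∀ x, ι (c x) = starRingEnd ℂ (ι x)) →
  ∀ (Ω : IntermediateField ℚ QA) [Normal ℚ Ω], (∀ x : QA, x ^ 2 ∈ Ω → x ∈ Ω) →
  ∀ F : IntermediateField ℚ QA, FiniteDimensional ℚ F → F ≤ Ω →
  ∃ (G : Type) (_ : Group G) (_ : Finite G) (π : (QA ≃ₐ[ℚ] QA) →* G) (S : Sig G) (w₀ : S.P)
    (N : Subgroup G) (_ : N.Normal), Function.Surjective π ∧ IsFinite Ω π ∧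
    (∀ w, ∃ g, w = S.act g w₀) ∧ S.κ w₀ = π c ∧ Rich S N ∧ (∀ x ∈ N, x * x = 1) ∧
    ∀ γ, π γ ∈ N → γ ∈ F.fixingSubgroup

/-- [OMG] the union of the finite extensions that are solvable over their maximal totally real
subfields -/
def S_OMG (QA : Type) [Field QA] [CharZero QA] [IsAlgClosed QA]
    [Algebra.IsAlgebraic ℚ QA] : Prop := ∀ c : (QA ≃ₐ[ℚ] QA), ∃ Ω : IntermediateField ℚ QA, Normal ℚ Ω ∧
  (∀ x : QA, x ^ 2 ∈ Ω → x ∈ Ω) ∧
  ∀ (G : Type) [Group G] (π : (QA ≃ₐ[ℚ] QA) →* G), Function.Surjective π → IsFinite ⊤ π →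
    (IsFinite Ω π ↔ Group.IsSolvable (Subgroup.normalClosure {π c}))

/-- [ASC] extension of the coefficient field -/
def S_ASC (QA : Type) [Field QA] [CharZero QA] [IsAlgClosed QA]
    [Algebra.IsAlgebraic ℚ QA] (KK : Type) [Field KK] [IsAlgClosed KK] : Prop := ∀ (E : Type) [Field E] [NumberField E] (d : ℕ) (M : Motive QA KK E d)
  (ι : QA →+* ℂ) (c : (QA ≃ₐ[ℚ] QA)), c * c = 1 → ∀ (m : ℤ) (E' : Type) [Field E'] [NumberField E']
  [Algebra E E'] (n : Type) [Fintype n] [DecidableEq n] (ρ : (QA ≃ₐ[ℚ] QA) →* Matrix n n E),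
  IsFinite ⊤ ρ → DeligneConjecture M ι c m ρ →
    DeligneConjecture M ι c m ((algebraMap E E').mapMatrix.toMonoidHom.comp ρ)

end Pool.Agent.Helper8K9.DG
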