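import Pool.Agent.Helper8K9.DG.Desc
import Pool.Agent.Helper8K9.DG.Ldiv
import Pool.Agent.Helper8K9.DG.Stm2

/-!
# Extension of the coefficient field
-/

set_option autoImplicit false
set_option linter.unusedSectionVars false

namespace Pool.Agent.Helper8K9.DG

open Pool.Agent.Helper8K9.DC

variable {QA : Type} [Field QA] [CharZero QA] [IsAlgClosed QA] [Algebra.IsAlgebraic ℚ QA]
  {KK : Type} [Field KK] [IsAlgClosed KK]

open Matrix Polynomial Filter Topology NumberField Per

namespace AscL

/-- elements on which the embeddings over `E` agree -/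
theorem desc_elt {E E' : Type} [Field E] [NumberField E] [Field E'] [NumberField E'] [Algebra E E']
    (x : E') (h : ∀ τ τ' : E' →+* QA, τ.comp (algebraMap E E') = τ'.comp (algebraMap E E') →
      τ x = τ' x) : ∃ e : E, algebraMap E E' e = x := by
  choose ext hext using Per.exists_lift (QA := QA) E E'
  obtain ⟨e, he⟩ := fixed_desc (fun τ => ext τ x) (by
    intro γ τ
    have h1 : (ext (cmp γ τ)).comp (algebraMap E E') = (cmp γ (ext τ)).comp (algebraMap E E') := by
      have h2 : (cmp γ (ext τ)).comp (algebraMap E E')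
          = cmp γ ((ext τ).comp (algebraMap E E')) := rfl
      rw [h2, hext, hext]
    exact h _ _ h1)
  obtain ⟨τ'⟩   := exists_emb (QA := QA) E'
  refine ⟨e, τ'.injective ?_⟩
  have h1 := he (τ'.comp (algebraMap E E'))
  have h2 := h (ext (τ'.comp (algebraMap E E'))) τ' (hext _)
  exact (h2.symm.trans h1).symm

theorem loc_congr {k m : Type} [Field k] [Fintype m] (I : Subgroup (QA ≃ₐ[ℚ] QA)) (φ : (QA ≃ₐ[ℚ] QA))
    {A B : (QA ≃ₐ[ℚ] QA) → Matrix m m k} (h : A = B) (P : k[X])
    (hA : ∃ T : Module.End k (fixedBy A I),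
      (∀ v, ((T v : fixedBy A I) : m → k) = A φ *ᵥ v) ∧ P = T.charpoly.reverse) :
    ∃ T : Module.End k (fixedBy B I),
      (∀ v, ((T v : fixedBy B I) : m → k) = B φ *ᵥ v) ∧ P = T.charpoly.reverse := by
  subst h
  exact hA

end AscL

open AscL

theorem asc (hPEX : (S_PEX QA KK)) (hPUNI : (S_PUNI QA KK)) : (S_ASC QA KK) := by
  intro E _ _ d M ι c hcc m E' _ _ _ n _ _ ρ hρ hD L' Ω' hL' hΩ'
  classical
  obtain ⟨Q', hQ', hE'⟩ := hL'
  have hA : Algebra.IsAlgebraic E E' := by
    have : FiniteDimensional E E' := Module.Finite.of_restrictScalars_finite ℚ E E'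
    exact Algebra.IsAlgebraic.of_finite E E'
  -- the local data do not depend on the extension to `E'`
  have htw : ∀ (p : Nat.Primes) (j : E' →+* KK), j.comp (algebraMap E E') = M.coeff p →
      twist M ((algebraMap E E').mapMatrix.toMonoidHom.comp ρ) p j
        = twist M ρ p (M.coeff p) := by
    intro p j hj
    funext σ
    have h1 : (((algebraMap E E').mapMatrix.toMonoidHom.comp ρ) σ).map j
        = (ρ σ).map (M.coeff p) := by
      rw [← hj]
      rfl
    rw [twist, twist, h1]
  have hloc : ∀ (p : Nat.Primes) (j : E' →+* KK), j.comp (algebraMap E E') = M.coeff p →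
      ∃ T : Module.End KK (fixedBy (twist M ρ p (M.coeff p)) (M.inertia p)),
        (∀ v, ((T v : fixedBy (twist M ρ p (M.coeff p)) (M.inertia p)) :
          Fin (2 * d) × n → KK) = twist M ρ p (M.coeff p) (M.frob p) *ᵥ v) ∧
        (Q' p).map j = T.charpoly.reverse := by
    intro p j hj
    exact loc_congr _ _ (htw p j hj) _ (hQ' p j hj)
  have hsame : ∀ (p : Nat.Primes) (j j' : E' →+* KK), j.comp (algebraMap E E') = M.coeff p →
      j'.comp (algebraMap E E') = M.coeff p → (Q' p).map j = (Q' p).map j' := by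
    intro p j j' hj hj'
    obtain ⟨T, hT, h1⟩ := hloc p j hj
    obtain ⟨T', hT', h2⟩ := hloc p j' hj'
    have hTT : T = T' := by
      ext1 v
      apply Subtype.ext
      rw [hT, hT']
    rw [h1, h2, hTT]
  -- the local factors have coefficients in `E`
  have hex : ∀ p : Nat.Primes, ∃ Q : E[X], Q.map (algebraMap E E') = Q' p := by
    intro p
    have h1 : Q' p ∈ Polynomial.lifts (algebraMap E E') := by
      rw [Polynomial.lifts_iff_coeff_lifts]
      intro i
      obtain ⟨e, he⟩ := desc_elt (E := E) ((Q' p).coeff i) (fun τ τ' hττ => by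
        let _ : Algebra E QA := (τ.comp (algebraMap E E')).toAlgebra
        have : IsScalarTower ℚ E QA := IsScalarTower.of_algebraMap_eq fun x => by
          rw [eq_ratCast, eq_ratCast, map_ratCast]
        have : Algebra.IsAlgebraic E QA := Algebra.IsAlgebraic.tower_top (K := ℚ) E
        let _ : Algebra E KK := (M.coeff p).toAlgebra
        let j : QA →ₐ[E] KK := IsAlgClosed.lift
        have hj : (j : QA →+* KK).comp (τ.comp (algebraMap E E')) = M.coeff p := by
          ext x
          exact j.commutes x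
        have h2 := hsame p ((j : QA →+* KK).comp τ) ((j : QA →+* KK).comp τ')
          (by rw [RingHom.comp_assoc]; exact hj)
          (by rw [RingHom.comp_assoc, ← hττ]; exact hj)
        have h3 := congrArg (fun P => Polynomial.coeff P i) h2
        simp only [Polynomial.coeff_map] at h3
        exact (j : QA →+* KK).injective h3)
      exact ⟨e, he⟩
    exact (Polynomial.mem_lifts _).mp h1
  choose Q hQ using hex
  choose ext hext using Per.exists_lift (QA := QA) E E'
  have hmap : ∀ (p : Nat.Primes) (τ : E' →+* QA),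
      (Q' p).map (ι.comp τ) = (Q p).map (ι.comp (τ.comp (algebraMap E E'))) := by
    intro p τ
    rw [← hQ, Polynomial.map_map]
    rfl
  -- the L-function over `E`
  have hL : IsLFunction M ι ρ (fun τ => L' (ext τ)) := by
    refine ⟨Q, fun p j hj => ?_, fun τ => ?_⟩
    · have hj' : j = M.coeff p := by rw [← hj]; rfl
      subst hj'
      let _ : Algebra E KK := (M.coeff p).toAlgebra
      let j : E' →ₐ[E] KK := IsAlgClosed.lift
      have hj2 : (j : E' →+* KK).comp (algebraMap E E') = M.coeff p := by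
        ext x
        exact j.commutes x
      obtain ⟨T, hT, h1⟩ := hloc p j hj2
      refine ⟨T, hT, ?_⟩
      rw [← h1, ← hQ, Polynomial.map_map, hj2]
    · obtain ⟨h1, b, h2⟩ := hE' (ext τ)
      refine ⟨h1, b, fun s hs => ?_⟩
      have h3 := h2 s hs
      simp only [hmap, hext] at h3
      exact h3
  -- the periods
  obtain ⟨Ω, hΩ⟩ := hPEX E d M ι c hcc E n ⊤ ρ ((-1) ^ m) hρ
  have hΩ2 : IsPeriod M ι c ((algebraMap E E').mapMatrix.toMonoidHom.comp ρ) ((-1) ^ m)
      (fun τ => Ω (τ.comp (algebraMap E E'))) := by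
    obtain ⟨S, s, X, hS, hX, hP⟩ := hΩ
    refine ⟨S.map (algebraMap E E'), s, fun τ => X (τ.comp (algebraMap E E')), ⟨?_, ?_⟩,
      ⟨fun τ => hX.1 _, ?_⟩, ?_⟩
    · have h1 : (S.map (algebraMap E E')).det = algebraMap E E' S.det := by
        rw [← RingHom.mapMatrix_apply, ← RingHom.map_det]
      rw [h1]
      exact hS.1.map _
    · have h1 := congrArg (fun A : Matrix n n E => A.map (algebraMap E E')) hS.2
      simp only [Matrix.map_mul] at h1
      have h2 : (diagonal fun b => (((s b : ℤˣ) : ℤ) : E)).map (algebraMap E E') =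
          diagonal fun b => (((s b : ℤˣ) : ℤ) : E') := by
        rw [Matrix.diagonal_map (map_zero _)]
        congr 1
        ext b
        exact map_intCast (algebraMap E E') _
      rw [h2] at h1
      exact h1
    · intro γ τ
      exact hX.2 γ (τ.comp (algebraMap E E'))
    · intro τ
      change Ω (τ.comp (algebraMap E E')) = _
      rw [hP (τ.comp (algebraMap E E'))]
      rfl
  obtain ⟨e, he0, he⟩ := hPUNI E d M ι c E' n _ _ _ _ hΩ2 hΩ'
  obtain ⟨e₀, he₀⟩ := hD _ Ω hL hΩ
  refine ⟨algebraMap E E' e₀ * e, fun τ => ?_⟩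
  have h1 := he₀ (τ.comp (algebraMap E E'))
  obtain ⟨m1, b1, hb1⟩ := hE' τ
  obtain ⟨m2, b2, hb2⟩ := hE' (ext (τ.comp (algebraMap E E')))
  have hid := mero_identity m1 m2 (max b1 b2) (fun s hs => by
    have h2 := hb1 s (lt_of_le_of_lt (le_max_left _ _) hs)
    have h3 := hb2 s (lt_of_le_of_lt (le_max_right _ _) hs)
    simp only [hmap, hext] at h2 h3
    exact h2.unique h3) (m : ℂ)
  have h2 : Tendsto (L' τ) (𝓝[≠] (m : ℂ)) (𝓝 (ι ((τ.comp (algebraMap E E')) e₀)
      * (2 * Real.pi * Complex.I) ^ (m * (d * Fintype.card n))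
      * Ω (τ.comp (algebraMap E E')))) :=
    h1.congr' (hid.mono fun s hs => hs.symm)
  have h3 := he τ
  have h4 : ι ((τ.comp (algebraMap E E')) e₀)
      * (2 * Real.pi * Complex.I) ^ (m * (d * Fintype.card n)) * Ω (τ.comp (algebraMap E E'))
      = ι (τ (algebraMap E E' e₀ * e)) * (2 * Real.pi * Complex.I) ^ (m * (d * Fintype.card n))
        * Ω' τ := by
    rw [h3, map_mul, map_mul]
    change ι (τ (algebraMap E E' e₀)) * _ * (_ * _) = _
    ring
  rw [h4] at h2
  exact h2

end Pool.Agent.Helper8K9.DG
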