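import Pool.Agent.Helper8K9.DG.Rich
import Pool.Agent.Helper8K9.DG.Stm2

set_option autoImplicit false
set_option linter.unusedSectionVars false

noncomputable section

namespace Pool.Agent.Helper8K9.DG

open Pool.Agent.Helper8K9.DC

variable {QA : Type} [Field QA] [CharZero QA] [IsAlgClosed QA] [Algebra.IsAlgebraic ℚ QA]
  {KK : Type} [Field KK] [IsAlgClosed KK]

open RichL in
theorem rich2 : (S_RICH2 QA) := by
  intro ι c hc Ω _ hΩ F hF hFΩ
  classical
  have hcc := cc hc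
  have hΩn : @Normal ℚ Ω _ _ (IntermediateField.algebra' Ω) := normal_conv Ω inferInstance
  have hG : IsGalois ℚ QA := isGalois
  -- the first field
  let F₁ : IntermediateField ℚ QA := IntermediateField.normalClosure ℚ F QA
  have hF₁f : FiniteDimensional ℚ F₁ := normalClosure.is_finiteDimensional ℚ F QA
  have hF₁n : Normal ℚ F₁ := normalClosure.normal ℚ F QA
  have hF₁g : IsGalois ℚ F₁ := IsGalois.normalClosure ℚ F QA
  have hFF₁ : F ≤ F₁ := IntermediateField.le_normalClosure F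
  have hF₁Ω : F₁ ≤ Ω := IntermediateField.normalClosure_le_iff_of_normal.mpr hFΩ
  have hM₁ : F₁.fixingSubgroup.Normal := inferInstance
  have hM₁f : F₁.fixingSubgroup.FiniteIndex := finite_quot F₁ hF₁n
  let mk₁ : (QA ≃ₐ[ℚ] QA) →* (QA ≃ₐ[ℚ] QA) ⧸ F₁.fixingSubgroup := QuotientGroup.mk' F₁.fixingSubgroup
  have hQ₁ : Finite ((QA ≃ₐ[ℚ] QA) ⧸ F₁.fixingSubgroup) := Subgroup.finite_quotient_of_finiteIndex
  have hker₁ : mk₁.ker = F₁.fixingSubgroup := QuotientGroup.ker_mk' _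
  let Sq : Subgroup (QA ≃ₐ[ℚ] QA) := Subgroup.closure {γ | ∃ δ ∈ F₁.fixingSubgroup, γ = δ * δ}
  have hSq : Sq.Normal := by
    apply Subgroup.Normal.mk
    intro σ hσ g
    induction hσ using Subgroup.closure_induction with
    | mem x hx =>
      obtain ⟨δ, hδ, rfl⟩ := hx
      refine Subgroup.subset_closure ⟨g * δ * g⁻¹, hM₁.conj_mem δ hδ g, ?_⟩
      group
    | one => rw [mul_one, mul_inv_cancel]; exact one_mem _
    | mul x y _ _ hx hy =>
      have : g * (x * y) * g⁻¹ = (g * x * g⁻¹) * (g * y * g⁻¹) := by group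
      rw [this]
      exact mul_mem hx hy
    | inv x _ hx =>
      have : g * x⁻¹ * g⁻¹ = (g * x * g⁻¹)⁻¹ := by group
      rw [this]
      exact inv_mem hx
  let E₂ : IntermediateField ℚ QA := IntermediateField.fixedField Sq
  have hE₂ : Normal ℚ E₂ := (IsGalois.of_fixedField_normal_subgroup Sq).to_normal
  have hE₂' : ∀ x : QA, (∀ δ ∈ F₁.fixingSubgroup, δ (δ x) = x) → x ∈ E₂ := by
    intro x hx
    rw [IntermediateField.mem_fixedField_iff]
    intro σ hσ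
    induction hσ using Subgroup.closure_induction with
    | mem y hy =>
      obtain ⟨δ, hδ, rfl⟩ := hy
      exact hx δ hδ
    | one => rfl
    | mul y z _ _ hy hz => rw [AlgEquiv.mul_apply, hz, hy]
    | inv y _ hy =>
      have h1 : y⁻¹ (y x) = y⁻¹ x := congrArg (fun z => y⁻¹ z) hy
      rw [← AlgEquiv.mul_apply, inv_mul_cancel, AlgEquiv.one_apply] at h1
      exact h1.symm
  have hF₁E₂ : F₁ ≤ E₂ := by
    intro x hx
    refine hE₂' x fun δ hδ => ?_
    have h1 := (IntermediateField.mem_fixingSubgroup_iff _ _).mp hδ x hx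
    rw [h1, h1]
  have hL : ∀ i : Subgroup ((QA ≃ₐ[ℚ] QA) ⧸ F₁.fixingSubgroup) × ((QA ≃ₐ[ℚ] QA) ⧸ F₁.fixingSubgroup),
      ∃ L : IntermediateField ℚ QA, FiniteDimensional ℚ L ∧ L ≤ Ω ∧ L ≤ E₂ ∧
        (i.2.out * c * i.2.out⁻¹ ∈ i.1.comap mk₁ → ∃ e : i.1.comap mk₁ →* ℂˣ,
          (∀ u, e u * e u = 1) ∧ (∀ u : i.1.comap mk₁, (u : (QA ≃ₐ[ℚ] QA)) ∈ L.fixingSubgroup → e u = 1) ∧
          ∀ (y : (QA ≃ₐ[ℚ] QA)) (h : y * c * y⁻¹ ∈ i.1.comap mk₁),
            e ⟨y * c * y⁻¹, h⟩ = -1 ↔ i.2.out * y⁻¹ ∈ i.1.comap mk₁) := by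
    intro i
    have hle : F₁.fixingSubgroup ≤ i.1.comap mk₁ :=
      hker₁.ge.trans (MonoidHom.ker_le_comap _ _)
    by_cases h : i.2.out * c * i.2.out⁻¹ ∈ i.1.comap mk₁
    · have hKf : FiniteDimensional ℚ (IntermediateField.fixedField (i.1.comap mk₁)) :=
        Module.Finite.of_injective (IntermediateField.inclusion (fixed_le hle)).toLinearMap
          (IntermediateField.inclusion (fixed_le hle)).injective
      obtain ⟨L, h1, h2, e, h3, h4, h5, b, hb, rfl⟩ := quad hc Ω hΩ (IntermediateField.fixedField (i.1.comap mk₁)) hKf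
        ((fixed_le hle).trans hF₁Ω) (i.1.comap mk₁) (fixing_fixed hle) i.2.out h
      refine ⟨_, h1, h2, ?_, fun _ => ⟨e, h3, h4, h5⟩⟩
      rw [IntermediateField.adjoin_simple_le_iff]
      refine hE₂' b fun δ hδ => ?_
      have hb1 : (δ b) ^ 2 = b ^ 2 := by
        rw [← map_pow]
        exact (IntermediateField.mem_fixingSubgroup_iff _ _).mp hδ _ (fixed_le hle hb)
      rcases sq_eq_sq_iff_eq_or_eq_neg.mp hb1 with h6 | h6
      · rw [h6, h6]
      · rw [h6, map_neg, h6, neg_neg]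
    · exact ⟨F₁, hF₁f, hF₁Ω, hF₁E₂, fun h' => absurd h' h⟩
  choose L hLf hLΩ hLE hLe using hL
  -- the second field
  let F' : IntermediateField ℚ QA := F₁ ⊔ ⨆ i, L i
  have hF'f : FiniteDimensional ℚ F' := by
    have : FiniteDimensional ℚ (⨆ i, L i : IntermediateField ℚ QA) :=
      IntermediateField.finiteDimensional_iSup_of_finite
    exact IntermediateField.finiteDimensional_sup _ _
  let F₂ : IntermediateField ℚ QA := IntermediateField.normalClosure ℚ F' QA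
  have hF₂f : FiniteDimensional ℚ F₂ := normalClosure.is_finiteDimensional ℚ F' QA
  have hF₂n : Normal ℚ F₂ := normalClosure.normal ℚ F' QA
  have hF₂g : IsGalois ℚ F₂ := IsGalois.normalClosure ℚ F' QA
  have hF'F₂ : F' ≤ F₂ := IntermediateField.le_normalClosure F'
  have hF₁F₂ : F₁ ≤ F₂ := le_sup_left.trans hF'F₂
  have hLF₂ : ∀ i, L i ≤ F₂ := fun i => ((le_iSup L i).trans le_sup_right).trans hF'F₂
  have hF₂Ω : F₂ ≤ Ω := IntermediateField.normalClosure_le_iff_of_normal.mpr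
    (sup_le hF₁Ω (iSup_le hLΩ))
  have hE₂n : @Normal ℚ E₂ _ _ (IntermediateField.algebra' E₂) := by
    exact hE₂
  have hF₂E₂ : F₂ ≤ E₂ := IntermediateField.normalClosure_le_iff_of_normal.mpr
    (sup_le hF₁E₂ (iSup_le hLE))
  have hM₂ : F₂.fixingSubgroup.Normal := inferInstance
  have hM₂f : F₂.fixingSubgroup.FiniteIndex := finite_quot F₂ hF₂n
  let G : Type := (QA ≃ₐ[ℚ] QA) ⧸ F₂.fixingSubgroup
  let π : (QA ≃ₐ[ℚ] QA) →* G := QuotientGroup.mk' F₂.fixingSubgroup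
  have hπ : Function.Surjective π := QuotientGroup.mk'_surjective _
  have hker₂ : ∀ γ, π γ = 1 ↔ γ ∈ F₂.fixingSubgroup := fun γ => QuotientGroup.eq_one_iff γ
  have hGf : Finite G := Subgroup.finite_quotient_of_finiteIndex
  have ht : π c * π c = 1 := by rw [← map_mul, hcc, map_one]
  have hM₂₁ : F₂.fixingSubgroup ≤ F₁.fixingSubgroup := IntermediateField.fixingSubgroup_le hF₁F₂
  have hNn : (F₁.fixingSubgroup.map π).Normal := Subgroup.Normal.map hM₁ π hπ
  refine ⟨G, inferInstance, hGf, π, sig (π c) ht,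
    ((1 : G) : G ⧸ Subgroup.zpowers (π c)), F₁.fixingSubgroup.map π, hNn, hπ,
    ⟨F₂, hF₂f, hF₂Ω, fun γ hγ => (hker₂ γ).mpr hγ⟩, ?_, ?_, ?_, ?_, ?_⟩
  · intro w
    obtain ⟨g, rfl⟩ := QuotientGroup.mk_surjective w
    exact ⟨g, by rw [sig_act, mul_one]⟩
  · rw [sig_κ]
    group
  · -- richness
    rintro U hNU ⟨w₀, hw₀⟩
    have hw₀' : ∃ y₁ : (QA ≃ₐ[ℚ] QA), w₀ = ((π y₁ : G) : G ⧸ Subgroup.zpowers (π c)) := by
      obtain ⟨g, hg⟩ := QuotientGroup.mk_surjective w₀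
      obtain ⟨y, rfl⟩ := hπ g
      exact ⟨y, hg.symm⟩
    obtain ⟨y₁, rfl⟩ := hw₀'
    have hκ : ∀ y : (QA ≃ₐ[ℚ] QA), (sig (π c) ht).κ ((π y : G) : G ⧸ Subgroup.zpowers (π c)) =
        π (y * c * y⁻¹) := by
      intro y
      rw [sig_κ, map_mul, map_mul, map_inv]
    have hy₁ : π (y₁ * c * y₁⁻¹) ∈ U := by
      rw [← hκ]
      exact hw₀
    have hM₁U : F₁.fixingSubgroup ≤ U.comap π := by
      intro γ hγ
      exact hNU ⟨γ, hγ, rfl⟩
    set U₁ : Subgroup ((QA ≃ₐ[ℚ] QA) ⧸ F₁.fixingSubgroup) := (U.comap π).map mk₁ with hU₁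
    have hcomap : U₁.comap mk₁ = U.comap π := by
      rw [hU₁]
      exact Subgroup.comap_map_eq_self (by rw [hker₁]; exact hM₁U)
    set i : Subgroup ((QA ≃ₐ[ℚ] QA) ⧸ F₁.fixingSubgroup) × ((QA ≃ₐ[ℚ] QA) ⧸ F₁.fixingSubgroup) := (U₁, mk₁ y₁) with hi
    have hout : mk₁ i.2.out = mk₁ y₁ := QuotientGroup.out_eq' (mk₁ y₁)
    have hcond : i.2.out * c * i.2.out⁻¹ ∈ i.1.comap mk₁ := by
      rw [Subgroup.mem_comap, map_mul, map_mul, map_inv, hout, ← map_inv, ← map_mul, ← map_mul]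
      exact ⟨y₁ * c * y₁⁻¹, hy₁, rfl⟩
    obtain ⟨e₁, he1, he2, he3⟩ := hLe i hcond
    obtain ⟨e, he⟩ := descend π hπ U (i.1.comap mk₁) hcomap e₁ fun u hu =>
      he2 u (IntermediateField.fixingSubgroup_le (hLF₂ i) ((hker₂ _).mp hu))
    have hmem : ∀ γ : (QA ≃ₐ[ℚ] QA), γ ∈ i.1.comap mk₁ ↔ π γ ∈ U := by
      intro γ
      change γ ∈ U₁.comap mk₁ ↔ _
      rw [hcomap]
      rfl
    refine ⟨e, ?_, ?_⟩
    · rintro ⟨g, hg⟩
      obtain ⟨γ, rfl⟩ := hπ g
      rw [he γ ((hmem γ).mpr hg) hg]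
      exact he1 _
    · rintro ⟨w, hw⟩
      have hw' : ∃ y : (QA ≃ₐ[ℚ] QA), w = ((π y : G) : G ⧸ Subgroup.zpowers (π c)) := by
        obtain ⟨g, hg⟩ := QuotientGroup.mk_surjective w
        obtain ⟨y, rfl⟩ := hπ g
        exact ⟨y, hg.symm⟩
      obtain ⟨y, rfl⟩ := hw'
      have hy : π (y * c * y⁻¹) ∈ U := by
        rw [← hκ]
        exact hw
      have h1 : e (((sig (π c) ht).res U).κ ⟨((π y : G) : G ⧸ Subgroup.zpowers (π c)), hw⟩) =
          e₁ ⟨y * c * y⁻¹, (hmem _).mpr hy⟩ := by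
        rw [← he (y * c * y⁻¹) ((hmem _).mpr hy) hy]
        congr 1
      rw [h1, he3]
      have h2 : i.2.out * y⁻¹ ∈ i.1.comap mk₁ ↔ π (y₁ * y⁻¹) ∈ U := by
        rw [← hmem, Subgroup.mem_comap, Subgroup.mem_comap, map_mul, hout, ← map_mul]
      rw [h2]
      constructor
      · intro h3
        refine ⟨⟨(π (y₁ * y⁻¹))⁻¹, U.inv_mem h3⟩, ?_⟩
        apply Subtype.ext
        change ((π y : G) : G ⧸ Subgroup.zpowers (π c)) =
          (sig (π c) ht).act (π (y₁ * y⁻¹))⁻¹ ((π y₁ : G) : G ⧸ Subgroup.zpowers (π c))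
        rw [sig_act]
        congr 1
        rw [map_mul, map_inv, mul_inv_rev, inv_inv, inv_mul_cancel_right]
      · rintro ⟨⟨g, hg⟩, h3⟩
        have h4 := congrArg Subtype.val h3
        change ((π y : G) : G ⧸ Subgroup.zpowers (π c)) =
          (sig (π c) ht).act g ((π y₁ : G) : G ⧸ Subgroup.zpowers (π c)) at h4
        rw [sig_act, QuotientGroup.eq, Subgroup.mem_zpowers_iff] at h4
        obtain ⟨k, hk⟩ := h4
        have h5 : π (y₁ * y⁻¹) = g⁻¹ * (π (y * c * y⁻¹)) ^ k := by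
          have h6 : (π (y * c * y⁻¹)) ^ k = π y * (π c) ^ k * (π y)⁻¹ := by
            rw [map_mul, map_mul, map_inv, conj_zpow]
          rw [h6, hk, map_mul, map_inv]
          group
        rw [h5]
        exact U.mul_mem (U.inv_mem hg) (U.zpow_mem hy k)
  · rintro _ ⟨δ, hδ, rfl⟩
    rw [← map_mul, hker₂]
    refine IntermediateField.fixingSubgroup_le hF₂E₂ ?_
    have h1 : Sq ≤ E₂.fixingSubgroup := (IntermediateField.le_iff_le Sq E₂).mp le_rfl
    exact h1 (Subgroup.subset_closure ⟨δ, hδ, rfl⟩)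
  · intro γ hγ
    obtain ⟨δ, hδ, h1⟩ := hγ
    have h2 : γ * δ⁻¹ ∈ F₂.fixingSubgroup := by
      rw [← hker₂, map_mul, map_inv, h1, mul_inv_cancel]
    have h3 : γ ∈ F₁.fixingSubgroup := by
      have := F₁.fixingSubgroup.mul_mem (hM₂₁ h2) hδ
      simpa using this
    exact IntermediateField.fixingSubgroup_le hFF₁ h3

end Pool.Agent.Helper8K9.DG
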