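import Pool.Agent.Helper8K9.DG.Cor2
import Pool.Agent.Helper8K9.DC.Grp
import Pool.Agent.Helper8K9.DG.Chr
import Pool.Agent.Helper8K9.DG.Iso
import Pool.Agent.Helper8K9.DG.Pex
import Pool.Agent.Helper8K9.DG.Psum
import Pool.Agent.Helper8K9.DG.Desc
import Pool.Agent.Helper8K9.DG.Ldiv
import Pool.Agent.Helper8K9.DG.Lmul
import Pool.Agent.Helper8K9.DG.Lsum
import Pool.Agent.Helper8K9.DG.Liso
import Pool.Agent.Helper8K9.DG.Luni
import Pool.Agent.Helper8K9.DG.Rich2
import Pool.Agent.Helper8K9.DG.Omg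

/-!
# Deligne's conjecture for Artin twists
-/

set_option autoImplicit false
set_option linter.unusedSectionVars false

namespace Pool.Agent.Helper8K9.DG

open Pool.Agent.Helper8K9.DC

variable {QA : Type} [Field QA] [CharZero QA] [IsAlgClosed QA] [Algebra.IsAlgebraic ℚ QA]
  {KK : Type} [Field KK] [IsAlgClosed KK]

open Matrix Filter Topology NumberField Pool.Agent.R389 Pool.Agent.H541R3.ART

section

variable {E : Type} [Field E] {d : ℕ} (M : Motive QA KK E d) (ι : QA →+* ℂ) (c : (QA ≃ₐ[ℚ] QA)) (m : ℤ)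
  {E' : Type} [Field E'] [Algebra E E']

/-- Deligne's conjecture for isomorphic representations -/
theorem deligne_iso [CharZero E'] {n n' : Type} [Fintype n] [DecidableEq n] [Fintype n']
    [DecidableEq n'] {ρ : (QA ≃ₐ[ℚ] QA) →* Matrix n n E'} {ρ' : (QA ≃ₐ[ℚ] QA) →* Matrix n' n' E'} (A : Matrix n n' E')
    (B : Matrix n' n E') (hAB : A * B = 1) (hBA : B * A = 1) (h : ∀ γ, ρ γ * A = A * ρ' γ)
    (hcard : Fintype.card n = Fintype.card n')
    (hD : DeligneConjecture M ι c m ρ) : DeligneConjecture M ι c m ρ' := by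
  intro L Ω hL hΩ
  obtain ⟨Q, hQ, hQ'⟩ := hL
  obtain ⟨e, he⟩ := hD L Ω
    ⟨Q, fun p => liso E d M E' n n' ρ ρ' A B hAB hBA h p (Q p) (hQ p), hQ'⟩
    (piso E d M ι c E' n n' ρ ρ' A B hAB hBA h _ Ω hΩ)
  rw [hcard] at he
  exact ⟨e, he⟩

end

/-- `ℚ` is solvable over a totally real field -/
theorem solvable_bot (c : (QA ≃ₐ[ℚ] QA)) : IsSolvableOverReal c ⊥ := by
  refine ⟨⊥, ⊥, le_rfl, le_rfl, inferInstance, fun g => ?_, ?_⟩
  · rw [IntermediateField.fixingSubgroup_bot]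
    exact Subgroup.mem_top _
  · have h1 : ((⊥ : IntermediateField ℚ QA).fixingSubgroup.subgroupOf
        (⊥ : IntermediateField ℚ QA).fixingSubgroup) = ⊤ := Subgroup.subgroupOf_self _
    rw [h1]
    refine ⟨inferInstance, ?_⟩
    have : Subsingleton ((⊥ : IntermediateField ℚ QA).fixingSubgroup ⧸
        (⊤ : Subgroup (⊥ : IntermediateField ℚ QA).fixingSubgroup)) :=
      QuotientGroup.subsingleton_quotient_top
    infer_instance

section

variable {E : Type} [Field E] {d : ℕ} (M : Motive QA KK E d) (ι : QA →+* ℂ) (c : (QA ≃ₐ[ℚ] QA)) (m : ℤ)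
  {E' : Type} [Field E'] [NumberField E'] [Algebra E E']

/-- the quadratic characters of the Galois group of `ℚ` are good if Deligne's conjecture holds for
them -/
theorem good_quad (hcc : c * c = 1) (hab : AbelianTwists M ι c m) (χ : (QA ≃ₐ[ℚ] QA) →* ℤˣ)
    (hχ : IsFinite ⊤ χ) (hD : DeligneConjecture M ι c m (quadRep E' χ)) :
    Good M ι c m (fun γ => (((χ γ : ℤˣ) : ℤ) : E')) := by
  classical
  let K : IntermediateField ℚ QA := ⊥
  let ψ : K.fixingSubgroup →* E'ˣ :=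
    (Units.map (Int.castRingHom E').toMonoidHom).comp (χ.comp K.fixingSubgroup.subtype)
  obtain ⟨F, hF, -, hFχ⟩ := hχ
  have hψ : IsFiniteOver K ψ := by
    refine ⟨F, hF, fun γ hγ => ?_⟩
    change (Units.map (Int.castRingHom E').toMonoidHom) (χ γ) = 1
    rw [hFχ γ hγ, map_one]
  have hentry : ∀ γ (τ τ' : K →ₐ[ℚ] QA), inducedMatrix K ψ γ τ τ' = (((χ γ : ℤˣ) : ℤ) : E') := by
    intro γ τ τ'
    have hss : τ' = τ := by
      refine AlgHom.ext fun x => ?_
      obtain ⟨q, hq⟩ := IntermediateField.mem_bot.mp x.2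
      have h1 : x = algebraMap ℚ K q := Subtype.ext hq.symm
      rw [h1, AlgHom.commutes, AlgHom.commutes]
    subst hss
    have h1 : (extend K τ')⁻¹ * γ * extend K τ' ∈ K.fixingSubgroup := by
      change _ ∈ (⊥ : IntermediateField ℚ QA).fixingSubgroup
      rw [IntermediateField.fixingSubgroup_bot]
      exact Subgroup.mem_top _
    rw [inducedMatrix, Matrix.of_apply, dif_pos h1]
    change (((χ ((extend K τ')⁻¹ * γ * extend K τ') : ℤˣ) : ℤ) : E') = _
    rw [map_mul, map_mul, map_inv, mul_right_comm, inv_mul_cancel, one_mul]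
  have hne : Nonempty (K →ₐ[ℚ] QA) := ⟨K.val⟩
  obtain ⟨τ₀⟩ := hne
  have huniq : ∀ τ : K →ₐ[ℚ] QA, τ = τ₀ := by
    intro τ
    refine AlgHom.ext fun x => ?_
    obtain ⟨q, hq⟩ := IntermediateField.mem_bot.mp x.2
    have h1 : x = algebraMap ℚ K q := Subtype.ext hq.symm
    rw [h1, AlgHom.commutes, AlgHom.commutes]
  have hcard : Fintype.card Unit = Fintype.card (K →ₐ[ℚ] QA) := by
    rw [Fintype.card_unit, eq_comm, Fintype.card_eq_one_iff]
    exact ⟨τ₀, huniq⟩
  let A : Matrix Unit (K →ₐ[ℚ] QA) E' := Matrix.of fun _ _ => 1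
  let B : Matrix (K →ₐ[ℚ] QA) Unit E' := Matrix.of fun _ _ => 1
  have hAB : A * B = 1 := by
    ext i j
    rw [Matrix.mul_apply, Subsingleton.elim j i, Matrix.one_apply_eq, Finset.sum_eq_single τ₀]
    · simp [A, B]
    · intro b _ hb; exact absurd (huniq b) hb
    · intro h; exact absurd (Finset.mem_univ _) h
  have hBA : B * A = 1 := by
    ext i j
    rw [Matrix.mul_apply, huniq i, huniq j, Matrix.one_apply_eq]
    simp [A, B]
  have hcomm : ∀ γ, quadRep E' χ γ * A = A * induced K ψ γ := by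
    intro γ
    ext i j
    rw [Matrix.mul_apply, Matrix.mul_apply, Finset.sum_eq_single τ₀]
    · change _ = A i τ₀ * inducedMatrix K ψ γ τ₀ j
      rw [hentry]
      simp [A, quadRep]
    · intro b _ hb; exact absurd (huniq b) hb
    · intro h; exact absurd (Finset.mem_univ _) h
  have hD' : DeligneConjecture M ι c m (induced K ψ) :=
    deligne_iso M ι c m A B hAB hBA hcomm hcard hD
  have hfin : IsFinite ⊤ (induced K ψ) := by
    refine ⟨F, hF, le_top, fun γ hγ => ?_⟩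
    ext i j
    change inducedMatrix K ψ γ i j = _
    rw [hentry, huniq i, huniq j, Matrix.one_apply_eq, hFχ γ hγ]
    simp
  obtain ⟨⟨L, hL, hLa⟩, -⟩ := hab E' K (solvable_bot c) ψ hψ
  choose a ha0 ha using hLa
  obtain ⟨Ω, hΩ⟩ := pex E d M ι c hcc E' (K →ₐ[ℚ] QA) ⊤ (induced K ψ) ((-1) ^ m) hfin
  have h1 := good_of_deligne M ι c m (lmul lsum) psum hfin ⟨L, hL, fun τ => ⟨ha0 τ, ha τ⟩⟩ hΩ hD'
  convert h1 using 1
  funext γ
  change _ = Matrix.trace (inducedMatrix K ψ γ)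
  rw [Matrix.trace, Finset.sum_eq_single τ₀]
  · rw [Matrix.diag_apply, hentry]
  · intro b _ hb; exact absurd (huniq b) hb
  · intro h; exact absurd (Finset.mem_univ _) h

end

/-- **Deligne's conjecture for Artin twists**, the base cases being given over all fields of
coefficients -/
theorem final {E : Type} [Field E] [NumberField E] {d : ℕ} (M : Motive QA KK E d) (ι : QA →+* ℂ) (c : (QA ≃ₐ[ℚ] QA))
    (hc : ∀ x, ι (c x) = starRingEnd ℂ (ι x)) (m : ℤ) (hab : AbelianTwists M ι c m)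
    (hone : ∀ (E' : Type) [Field E'] [NumberField E'] [Algebra E E'],
      DeligneConjecture M ι c m (quadRep E' 1))
    (χ₀ : (QA ≃ₐ[ℚ] QA) →* ℤˣ) (hχf : IsFinite ⊤ χ₀) (hχc : χ₀ c = -1)
    (hodd : ∀ (E' : Type) [Field E'] [NumberField E'] [Algebra E E'],
      DeligneConjecture M ι c m (quadRep E' χ₀))
    (E' : Type) [Field E'] [NumberField E'] [Algebra E E'] (n : Type) [Fintype n] [DecidableEq n]
    (ρ : (QA ≃ₐ[ℚ] QA) →* Matrix n n E') (hρ : IsFinite ⊤ ρ)
    (hsol : Group.IsSolvable (Subgroup.normalClosure {(c : (QA ≃ₐ[ℚ] QA) ⧸ ρ.ker)})) :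
    DeligneConjecture M ι c m ρ := by
  classical
  have hcc := conj_sq ι c hc
  obtain ⟨Ω, hΩn, hΩs, hΩ⟩ := omg c
  -- `ρ` and `χ₀` factor through the Galois group of `Ω`
  have hρΩ : IsFinite Ω ρ := by
    obtain ⟨F, hF, -, h1⟩ := hρ
    have h2 : IsFinite ⊤ (QuotientGroup.mk' ρ.ker) := by
      refine ⟨F, hF, le_top, fun γ hγ => ?_⟩
      exact (QuotientGroup.eq_one_iff γ).mpr (MonoidHom.mem_ker.mpr (h1 γ hγ))
    obtain ⟨F', hF', hle, h3⟩ := (hΩ _ (QuotientGroup.mk' ρ.ker)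
      (QuotientGroup.mk'_surjective _) h2).mpr hsol
    refine ⟨F', hF', hle, fun γ hγ => ?_⟩
    exact MonoidHom.mem_ker.mp ((QuotientGroup.eq_one_iff γ).mp (h3 γ hγ))
  have hχΩ : IsFinite Ω χ₀ := by
    obtain ⟨F, hF, -, h1⟩ := hχf
    have h2 : IsFinite ⊤ χ₀.rangeRestrict := by
      refine ⟨F, hF, le_top, fun γ hγ => ?_⟩
      apply Subtype.ext
      exact h1 γ hγ
    obtain ⟨F', hF', hle, h3⟩ := (hΩ _ χ₀.rangeRestrict χ₀.rangeRestrict_surjective h2).mpr
      inferInstance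
    refine ⟨F', hF', hle, fun γ hγ => ?_⟩
    exact congrArg Subtype.val (h3 γ hγ)
  obtain ⟨F₁, hF₁, hF₁Ω, h1⟩ := hρΩ
  obtain ⟨F₂, hF₂, hF₂Ω, h2⟩ := hχΩ
  obtain ⟨G, _, _, π, S, w₀, N, _, hπs, hπ, htr, hκ, hR, hN2, hN⟩ :=
    rich2 ι c hc Ω hΩs (F₁ ⊔ F₂) inferInstance (sup_le hF₁Ω hF₂Ω)
  have hπt : IsFinite ⊤ π := by
    obtain ⟨F, hF, -, h⟩ := hπ
    exact ⟨F, hF, le_top, h⟩
  have hsolG : Group.IsSolvable (Subgroup.normalClosure {π c}) := (hΩ G π hπs hπt).mp hπ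
  -- the coefficient field with enough roots of unity
  have hexp : NeZero (Monoid.exponent G) := ⟨Monoid.exponent_ne_zero_of_finite⟩
  let E'' : Type := CyclotomicField (Monoid.exponent G) E'
  have : NumberField E'' := IsCyclotomicExtension.numberField {Monoid.exponent G} E' E''
  have : IsScalarTower E E' E'' := inferInstance
  have : Algebra.IsAlgebraic E E'' := by
    have h3 : IsScalarTower ℚ E E'' := IsScalarTower.of_algebraMap_eq fun x => by
      rw [eq_ratCast, eq_ratCast, map_ratCast]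
    exact Algebra.IsAlgebraic.tower_top (K := ℚ) E
  let ρ' : (QA ≃ₐ[ℚ] QA) →* Matrix n n E'' := (algebraMap E' E'').mapMatrix.toMonoidHom.comp ρ
  have hρ'1 : ∀ γ, ρ γ = 1 → ρ' γ = 1 := by
    intro γ h
    change (algebraMap E' E'').mapMatrix (ρ γ) = 1
    rw [h, map_one]
  have hρ'f : IsFinite ⊤ ρ' := ⟨F₁, hF₁, le_top, fun γ hγ => hρ'1 γ (h1 γ hγ)⟩
  refine desc pne E d M ι c m E' E'' n ρ ?_
  have hg1 : Good M ι c m (fun _ => (1 : E'')) := by
    have h3 : IsFinite ⊤ (1 : (QA ≃ₐ[ℚ] QA) →* ℤˣ) := ⟨⊥, inferInstance, le_top, fun _ _ => rfl⟩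
    have h4 := good_quad M ι c m hcc hab 1 h3 (hone E'')
    convert h4 using 1
    funext γ
    simp
  have hg2 := good_quad M ι c m hcc hab χ₀ hχf (hodd E'')
  exact core2 M ι c m pex chr cor (lmul lsum) psum rel iso (ldiv lsum liso luni) piso puni pne hcc
    hab hπs hπ S w₀ htr hκ N hR hN2 hsolG χ₀ hχc
    (fun γ hγ => h2 γ (IntermediateField.fixingSubgroup_antitone le_sup_right (hN γ hγ)))
    hg1 hg2 (IsCyclotomicExtension.zeta_spec (Monoid.exponent G) E' E'') ρ' hρ'f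
    (fun γ hγ => hρ'1 γ
      (h1 γ (IntermediateField.fixingSubgroup_antitone le_sup_left (hN γ hγ))))

end Pool.Agent.Helper8K9.DG
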