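import Pool.Agent.Helper8K9.DG.Mot
import Pool.Agent.Helper8K9.DC.Sig

/-!
# The field `Ω`: solvable extensions of totally real fields
-/

set_option autoImplicit false
set_option linter.unusedSectionVars false

namespace Pool.Agent.Helper8K9.DG

open Pool.Agent.Helper8K9.DC

variable {QA : Type} [Field QA] [CharZero QA] [IsAlgClosed QA] [Algebra.IsAlgebraic ℚ QA]
  {KK : Type} [Field KK] [IsAlgClosed KK]

namespace Omg

open IntermediateField

instance : IsGalois ℚ QA := by
  have : IsAlgClosed QA := inferInstance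
  have : Normal ℚ QA := by
    have : IsAlgClosure ℚ QA := inferInstance
    exact IsAlgClosure.normal ℚ QA
  exact ⟨⟩

/-- `F` belongs to the family of `c` -/
def Fam (c : (QA ≃ₐ[ℚ] QA)) (F : IntermediateField ℚ QA) : Prop :=
  FiniteDimensional ℚ F ∧ ∃ (G : Type) (_ : Group G) (π : (QA ≃ₐ[ℚ] QA) →* G), Function.Surjective π ∧
    π.ker = F.fixingSubgroup ∧ Group.IsSolvable (Subgroup.normalClosure {π c})

/-- a criterion for solvability -/
theorem solv {G G₁ : Type} [Group G] [Group G₁] (φ : G →* G₁) (x : G)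
    (h1 : Group.IsSolvable (Subgroup.normalClosure {φ x}))
    (h2 : ∀ a b : G, φ a = 1 → φ b = 1 → a * b = b * a) :
    Group.IsSolvable (Subgroup.normalClosure {x}) := by
  have hmap : ∀ y ∈ Subgroup.normalClosure {x}, φ y ∈ Subgroup.normalClosure {φ x} := by
    intro y hy
    have h3 : Subgroup.normalClosure {x} ≤ (Subgroup.normalClosure {φ x}).comap φ := by
      refine Subgroup.normalClosure_le_normal ?_
      rintro z hz
      rw [Set.mem_singleton_iff] at hz
      subst hz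
      exact Subgroup.subset_normalClosure (Set.mem_singleton _)
    exact h3 hy
  let g : Subgroup.normalClosure {x} →* Subgroup.normalClosure {φ x} :=
    (φ.comp (Subgroup.subtype _)).codRestrict _ fun y => hmap y y.2
  have : Group.IsSolvable g.ker := by
    refine Group.isSolvable_of_comm fun a b => ?_
    apply Subtype.ext
    apply Subtype.ext
    have ha : φ ((a : Subgroup.normalClosure {x}) : G) = 1 := by
      have := a.2
      rw [MonoidHom.mem_ker] at this
      exact congrArg Subtype.val this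
    have hb : φ ((b : Subgroup.normalClosure {x}) : G) = 1 := by
      have := b.2
      rw [MonoidHom.mem_ker] at this
      exact congrArg Subtype.val this
    exact h2 _ _ ha hb
  exact Group.isSolvable_of_ker_le_range g.ker.subtype g (by rw [Subgroup.range_subtype])

theorem fam_sup (c : (QA ≃ₐ[ℚ] QA)) {F₁ F₂ : IntermediateField ℚ QA} (h₁ : Fam c F₁) (h₂ : Fam c F₂) :
    Fam c (F₁ ⊔ F₂) := by
  obtain ⟨f₁, G₁, _, π₁, s₁, k₁, v₁⟩ := h₁
  obtain ⟨f₂, G₂, _, π₂, s₂, k₂, v₂⟩ := h₂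
  refine ⟨inferInstance, (π₁.prod π₂).range, inferInstance, (π₁.prod π₂).rangeRestrict,
    MonoidHom.rangeRestrict_surjective _, ?_, ?_⟩
  · rw [MonoidHom.ker_rangeRestrict, MonoidHom.ker_prod, k₁, k₂, IntermediateField.fixingSubgroup_sup]
  · -- injective into the product
    have m₁ : ∀ y ∈ Subgroup.normalClosure {(π₁.prod π₂).rangeRestrict c},
        (y : G₁ × G₂).1 ∈ Subgroup.normalClosure {π₁ c} := by
      intro y hy
      have h3 : Subgroup.normalClosure {(π₁.prod π₂).rangeRestrict c} ≤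
          (Subgroup.normalClosure {π₁ c}).comap
            ((MonoidHom.fst G₁ G₂).comp (Subgroup.subtype _)) := by
        have : ((Subgroup.normalClosure {π₁ c}).comap
            ((MonoidHom.fst G₁ G₂).comp (Subgroup.subtype (π₁.prod π₂).range))).Normal :=
          Subgroup.Normal.comap inferInstance _
        refine Subgroup.normalClosure_le_normal ?_
        intro z hz
        rw [Set.mem_singleton_iff] at hz
        subst hz
        exact Subgroup.subset_normalClosure (Set.mem_singleton _)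
      exact h3 hy
    have m₂ : ∀ y ∈ Subgroup.normalClosure {(π₁.prod π₂).rangeRestrict c},
        (y : G₁ × G₂).2 ∈ Subgroup.normalClosure {π₂ c} := by
      intro y hy
      have h3 : Subgroup.normalClosure {(π₁.prod π₂).rangeRestrict c} ≤
          (Subgroup.normalClosure {π₂ c}).comap
            ((MonoidHom.snd G₁ G₂).comp (Subgroup.subtype _)) := by
        have : ((Subgroup.normalClosure {π₂ c}).comap
            ((MonoidHom.snd G₁ G₂).comp (Subgroup.subtype (π₁.prod π₂).range))).Normal :=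
          Subgroup.Normal.comap inferInstance _
        refine Subgroup.normalClosure_le_normal ?_
        intro z hz
        rw [Set.mem_singleton_iff] at hz
        subst hz
        exact Subgroup.subset_normalClosure (Set.mem_singleton _)
      exact h3 hy
    let j : Subgroup.normalClosure {(π₁.prod π₂).rangeRestrict c} →*
        Subgroup.normalClosure {π₁ c} × Subgroup.normalClosure {π₂ c} :=
      { toFun := fun y => (⟨_, m₁ y y.2⟩, ⟨_, m₂ y y.2⟩)
        map_one' := rfl
        map_mul' := fun _ _ => rfl }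
    refine Group.isSolvable_of_isSolvable_injective (f := j) ?_
    intro a b hab
    have e1 := congrArg (fun z => z.1.1) hab
    have e2 := congrArg (fun z => z.2.1) hab
    exact Subtype.ext (Subtype.ext (Prod.ext e1 e2))

theorem fam_bot (c : (QA ≃ₐ[ℚ] QA)) : Fam c ⊥ := by
  refine ⟨inferInstance, PUnit, inferInstance, 1, fun x => ⟨1, Subsingleton.elim _ _⟩, ?_, ?_⟩
  · rw [IntermediateField.fixingSubgroup_bot]
    ext x
    simp
  · exact inferInstance

/-- the union of the family -/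
noncomputable def Om (c : (QA ≃ₐ[ℚ] QA)) : IntermediateField ℚ QA :=
  ⨆ F : {F : IntermediateField ℚ QA // Fam c F}, F.1

theorem mem_Om (c : (QA ≃ₐ[ℚ] QA)) (x : QA) : x ∈ Om c ↔ ∃ F, Fam c F ∧ x ∈ F := by
  have : Nonempty {F : IntermediateField ℚ QA // Fam c F} := ⟨⟨⊥, fam_bot c⟩⟩
  have hd : Directed (· ≤ ·) (fun F : {F : IntermediateField ℚ QA // Fam c F} => F.1) := by
    intro a b
    exact ⟨⟨a.1 ⊔ b.1, fam_sup c a.2 b.2⟩, le_sup_left, le_sup_right⟩
  rw [← SetLike.mem_coe, Om, IntermediateField.coe_iSup_of_directed hd, Set.mem_iUnion]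
  constructor
  · rintro ⟨F, hF⟩; exact ⟨F.1, F.2, hF⟩
  · rintro ⟨F, hF, hx⟩; exact ⟨⟨F, hF⟩, hx⟩

/-- finite subfields are in a member of the family -/
theorem fin_le (c : (QA ≃ₐ[ℚ] QA)) (F : IntermediateField ℚ QA) (hf : FiniteDimensional ℚ F) (h : F ≤ Om c) :
    ∃ F', Fam c F' ∧ F ≤ F' := by
  classical
  have key : ∀ S : Finset QA, (∀ x ∈ S, x ∈ Om c) → ∃ F', Fam c F' ∧ ∀ x ∈ S, x ∈ F' := by
    intro S
    induction S using Finset.induction_on with
    | empty => exact fun _ => ⟨⊥, fam_bot c, fun x hx => absurd hx (Finset.notMem_empty x)⟩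
    | insert a S _ ih =>
      intro hS
      obtain ⟨F₁, h₁, h₂⟩ := ih fun x hx => hS x (Finset.mem_insert_of_mem hx)
      obtain ⟨F₂, h₃, h₄⟩ := (mem_Om c a).mp (hS a (Finset.mem_insert_self _ _))
      refine ⟨F₁ ⊔ F₂, fam_sup c h₁ h₃, fun x hx => ?_⟩
      rcases Finset.mem_insert.mp hx with rfl | hx
      · exact (le_sup_right : F₂ ≤ F₁ ⊔ F₂) h₄
      · exact (le_sup_left : F₁ ≤ F₁ ⊔ F₂) (h₂ x hx)
  let b := Module.finBasis ℚ F
  obtain ⟨F', h1, h2⟩ := key (Finset.univ.image fun i => (b i : QA)) (by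
    intro x hx
    obtain ⟨i, -, rfl⟩ := Finset.mem_image.mp hx
    exact h (b i).2)
  refine ⟨F', h1, fun y hy => ?_⟩
  have h3 := b.sum_repr ⟨y, hy⟩
  have h4 : y = ∑ i, (b.repr ⟨y, hy⟩ i) • (b i : QA) := by
    have h5 := congrArg F.val h3
    rw [map_sum] at h5
    exact h5.symm
  rw [h4]
  refine sum_mem fun i _ => ?_
  exact F'.smul_mem (h2 _ (Finset.mem_image.mpr ⟨i, Finset.mem_univ _, rfl⟩))

theorem fam_normal (c : (QA ≃ₐ[ℚ] QA)) (F : IntermediateField ℚ QA) (h : Fam c F) : Normal ℚ F := by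
  obtain ⟨f₁, G₁, _, π₁, s₁, k₁, v₁⟩ := h
  have h1 : F.fixingSubgroup.Normal := by rw [← k₁]; infer_instance
  have := (InfiniteGalois.normal_iff_isGalois F).mp h1
  exact this.to_normal

/-- adjoining square roots -/
theorem fam_sqrt (c : (QA ≃ₐ[ℚ] QA)) (F : IntermediateField ℚ QA) (h : Fam c F) (x : QA) (hx : x ^ 2 ∈ F) :
    ∃ F', Fam c F' ∧ x ∈ F' := by
  classical
  have hn := fam_normal c F h
  obtain ⟨f₁, G₁, _, π₁, s₁, k₁, v₁⟩ := h
  have hxi : IsIntegral ℚ x := Algebra.IsIntegral.isIntegral x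
  set O : Set QA := (minpoly ℚ x).rootSet QA with hO
  have hOf : O.Finite := Polynomial.rootSet_finite _ _
  have hconj : ∀ z ∈ O, ∃ σ : (QA ≃ₐ[ℚ] QA), σ x = z := by
    intro z hz
    have hz1 : Polynomial.aeval z (minpoly ℚ x) = 0 :=
      (Polynomial.mem_rootSet.mp hz).2
    exact minpoly.exists_algEquiv_of_root' hxi.isAlgebraic hz1
  have hstab : ∀ (σ : (QA ≃ₐ[ℚ] QA)), ∀ z ∈ O, σ z ∈ O := by
    intro σ z hz
    rw [hO, Polynomial.mem_rootSet] at hz ⊢
    refine ⟨hz.1, ?_⟩
    have h1 : Polynomial.aeval (σ z) (minpoly ℚ x) = σ (Polynomial.aeval z (minpoly ℚ x)) :=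
      Polynomial.aeval_algHom_apply (σ : QA →ₐ[ℚ] QA) z _
    rw [h1, hz.2, map_zero]
  have hxO : x ∈ O := by
    rw [hO, Polynomial.mem_rootSet]
    exact ⟨minpoly.ne_zero hxi, minpoly.aeval ℚ x⟩
  have hFs : ∀ (σ : (QA ≃ₐ[ℚ] QA)) (y : QA), y ∈ F → σ y ∈ F := by
    intro σ y hy
    have h1 := IntermediateField.normal_iff_forall_map_le'.mp hn σ
    exact h1 ⟨y, hy, rfl⟩
  have hsq : ∀ z ∈ O, z ^ 2 ∈ F := by
    intro z hz
    obtain ⟨σ, rfl⟩ := hconj z hz
    rw [← map_pow]
    exact hFs σ _ hx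
  set F' : IntermediateField ℚ QA := F ⊔ IntermediateField.adjoin ℚ O with hF'
  have hfin : FiniteDimensional ℚ (IntermediateField.adjoin ℚ O) :=
    IntermediateField.finiteDimensional_adjoin fun y _ => Algebra.IsIntegral.isIntegral y
  have hmem : ∀ γ : (QA ≃ₐ[ℚ] QA), γ ∈ F'.fixingSubgroup ↔ γ ∈ F.fixingSubgroup ∧ ∀ z ∈ O, γ z = z := by
    intro γ
    rw [hF', IntermediateField.fixingSubgroup_sup, Subgroup.mem_inf]
    refine and_congr Iff.rfl ?_
    rw [← Subgroup.zpowers_le, ← IntermediateField.le_iff_le, IntermediateField.adjoin_le_iff]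
    constructor
    · intro h z hz
      have h1 := h hz
      rw [SetLike.mem_coe, IntermediateField.mem_fixedField_iff] at h1
      exact h1 γ (Subgroup.mem_zpowers γ)
    · intro h z hz
      rw [SetLike.mem_coe, IntermediateField.mem_fixedField_iff]
      intro g hg
      have h1 : Subgroup.zpowers γ ≤ MulAction.stabilizer (QA ≃ₐ[ℚ] QA) z := by
        rw [Subgroup.zpowers_le]
        exact h z hz
      exact h1 hg
  have hnF : F.fixingSubgroup.Normal := by rw [← k₁]; infer_instance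
  have hnF' : F'.fixingSubgroup.Normal := by
    refine ⟨fun γ hγ g => ?_⟩
    rw [hmem] at hγ ⊢
    refine ⟨hnF.conj_mem γ hγ.1 g, fun z hz => ?_⟩
    have h1 := hγ.2 (g⁻¹ z) (hstab g⁻¹ z hz)
    rw [AlgEquiv.mul_apply, AlgEquiv.mul_apply, h1, ← AlgEquiv.mul_apply, mul_inv_cancel,
      AlgEquiv.one_apply]
  refine ⟨F', ⟨inferInstance, (QA ≃ₐ[ℚ] QA) ⧸ F'.fixingSubgroup, inferInstance, QuotientGroup.mk' _,
    QuotientGroup.mk'_surjective _, QuotientGroup.ker_mk' _, ?_⟩,
    (le_sup_right : _ ≤ F') (IntermediateField.subset_adjoin ℚ O hxO)⟩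
  let φ : (QA ≃ₐ[ℚ] QA) ⧸ F'.fixingSubgroup →* G₁ := QuotientGroup.lift _ π₁ (by
    intro γ hγ
    have := ((hmem γ).mp hγ).1
    rw [← k₁] at this
    exact this)
  have hφ : ∀ γ : (QA ≃ₐ[ℚ] QA), φ (QuotientGroup.mk' _ γ) = π₁ γ := fun γ => rfl
  refine solv φ _ (by rw [hφ]; exact v₁) ?_
  intro a b ha hb
  obtain ⟨a, rfl⟩ := QuotientGroup.mk'_surjective _ a
  obtain ⟨b, rfl⟩ := QuotientGroup.mk'_surjective _ b
  rw [hφ, ← MonoidHom.mem_ker, k₁] at ha hb
  have hpm : ∀ γ ∈ F.fixingSubgroup, ∀ z ∈ O, γ z = z ∨ γ z = -z := by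
    intro γ hγ z hz
    have h1 : γ (z ^ 2) = z ^ 2 :=
      (IntermediateField.mem_fixingSubgroup_iff _ _).mp hγ _ (hsq z hz)
    rw [map_pow] at h1
    exact sq_eq_sq_iff_eq_or_eq_neg.mp h1
  rw [← map_mul, ← map_mul]
  change QuotientGroup.mk (a * b) = QuotientGroup.mk (b * a)
  rw [QuotientGroup.eq, hmem]
  refine ⟨F.fixingSubgroup.mul_mem (F.fixingSubgroup.inv_mem (F.fixingSubgroup.mul_mem ha hb))
    (F.fixingSubgroup.mul_mem hb ha), fun z hz => ?_⟩
  have h1 : (b * a) z = (a * b) z := by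
    rw [AlgEquiv.mul_apply, AlgEquiv.mul_apply]
    rcases hpm a ha z hz with h2 | h2 <;> rcases hpm b hb z hz with h3 | h3 <;>
      simp [h2, h3]
  rw [AlgEquiv.mul_apply, h1, ← AlgEquiv.mul_apply, inv_mul_cancel, AlgEquiv.one_apply]

end Omg

/-- **The field of the solvable extensions of totally real fields.** -/
theorem omg : ∀ c : (QA ≃ₐ[ℚ] QA), ∃ Ω : IntermediateField ℚ QA, Normal ℚ Ω ∧ (∀ x : QA, x ^ 2 ∈ Ω → x ∈ Ω) ∧
    ∀ (G : Type) [Group G] (π : (QA ≃ₐ[ℚ] QA) →* G), Function.Surjective π →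
      IsFinite (⊤ : IntermediateField ℚ QA) π →
      (IsFinite Ω π ↔ Group.IsSolvable (Subgroup.normalClosure {π c})) := by
  intro c
  refine ⟨Omg.Om c, ?_, ?_, ?_⟩
  · have : ∀ F : {F : IntermediateField ℚ QA // Omg.Fam c F}, Normal ℚ F.1 :=
      fun F => Omg.fam_normal c F.1 F.2
    exact IntermediateField.normal_iSup (F := ℚ) (K := QA) (h := this)
  · intro x hx
    obtain ⟨F, h1, h2⟩ := (Omg.mem_Om c _).mp hx
    obtain ⟨F', h3, h4⟩ := Omg.fam_sqrt c F h1 x h2
    exact (Omg.mem_Om c x).mpr ⟨F', h3, h4⟩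
  · intro G _ π hπ hfin
    constructor
    · rintro ⟨F, hf, hle, htriv⟩
      obtain ⟨F', ⟨h1, G₁, _, π₁, s₁, k₁, v₁⟩, h3⟩ := Omg.fin_le c F hf hle
      have hker : π₁.ker ≤ π.ker := by
        rw [k₁]
        intro γ hγ
        exact htriv γ (IntermediateField.fixingSubgroup_antitone h3 hγ)
      let φ : G₁ →* G := π₁.liftOfSurjective s₁ ⟨π, hker⟩
      have hφ : ∀ γ, φ (π₁ γ) = π γ := by
        intro γ
        exact MonoidHom.liftOfRightInverse_comp_apply _ _ _ ⟨π, hker⟩ γ
      have hsur : Function.Surjective φ := by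
        intro y
        obtain ⟨γ, rfl⟩ := hπ y
        exact ⟨π₁ γ, hφ γ⟩
      have hmap : (Subgroup.normalClosure {π₁ c}).map φ = Subgroup.normalClosure {π c} := by
        rw [Subgroup.map_normalClosure _ _ hsur, Set.image_singleton, hφ]
      rw [← hmap]
      exact Group.isSolvable_of_surjective (φ.subgroupMap_surjective _)
    · intro hsol
      obtain ⟨F, hf, -, htriv⟩ := hfin
      have hle : F.fixingSubgroup ≤ π.ker := fun γ hγ => htriv γ hγ
      have hopen : IsOpen (π.ker : Set (QA ≃ₐ[ℚ] QA)) :=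
        Subgroup.isOpen_mono hle (IntermediateField.fixingSubgroup_isOpen F)
      have hcl : IsClosed (π.ker : Set (QA ≃ₐ[ℚ] QA)) := Subgroup.isClosed_of_isOpen _ hopen
      let H : ClosedSubgroup (QA ≃ₐ[ℚ] QA) := ⟨π.ker, hcl⟩
      let L : IntermediateField ℚ QA := IntermediateField.fixedField π.ker
      have hL : L.fixingSubgroup = π.ker := InfiniteGalois.fixingSubgroup_fixedField H
      have hfL : FiniteDimensional ℚ L := by
        have h1 : IsOpen (L.fixingSubgroup : Set (QA ≃ₐ[ℚ] QA)) := by rw [hL]; exact hopen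
        exact (InfiniteGalois.isOpen_iff_finite L).mp h1
      refine ⟨L, hfL, fun x hx => (Omg.mem_Om c x).mpr ⟨L, ⟨hfL, G, inferInstance, π, hπ, hL.symm,
        hsol⟩, hx⟩, fun γ hγ => ?_⟩
      rw [hL] at hγ
      exact hγ

end Pool.Agent.Helper8K9.DG
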