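import Pool.Agent.Helper8K9.DG.Stm

set_option autoImplicit false
set_option linter.unusedSectionVars false

namespace Pool.Agent.Helper8K9.DG

open Pool.Agent.Helper8K9.DC

variable {QA : Type} [Field QA] [CharZero QA] [IsAlgClosed QA] [Algebra.IsAlgebraic ℚ QA]
  {KK : Type} [Field KK] [IsAlgClosed KK]

theorem sgn : S_SGN := by
  intro K _ _ σ₀
  obtain ⟨α, hα⟩ := Field.exists_primitive_element ℚ K
  have hinj : ∀ σ σ' : K →+* ℝ, σ α = σ' α → σ = σ' := by
    intro σ σ' h
    have h1 : ∀ x : K, x ∈ IntermediateField.adjoin ℚ {α} → σ x = σ' x := by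
      intro x hx
      induction hx using IntermediateField.adjoin_induction with
      | mem x hx =>
        rw [Set.mem_singleton_iff] at hx
        rw [hx, h]
      | algebraMap x => rw [eq_ratCast, map_ratCast, map_ratCast]
      | add x y _ _ hx hy => rw [map_add, map_add, hx, hy]
      | inv x _ hx => rw [map_inv₀, map_inv₀, hx]
      | mul x y _ _ hx hy => rw [map_mul, map_mul, hx, hy]
    refine RingHom.ext fun x => h1 x ?_
    rw [hα]
    exact IntermediateField.mem_top
  have hfin : Finite (K →+* ℝ) := by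
    have h1 : Function.Injective (fun σ : K →+* ℝ => Complex.ofRealHom.comp σ) := by
      intro σ σ' h
      refine RingHom.ext fun x => ?_
      have := congrArg (fun f : K →+* ℂ => f x) h
      exact Complex.ofReal_injective this
    exact Finite.of_injective _ h1
  set S : Set ℝ := {x | ∃ σ : K →+* ℝ, σ ≠ σ₀ ∧ σ α = x} with hS
  have hSf : S.Finite := by
    refine (Set.finite_range (fun σ : K →+* ℝ => σ α)).subset ?_
    rintro x ⟨σ, -, rfl⟩
    exact ⟨σ, rfl⟩
  have hnot : σ₀ α ∈ Sᶜ := by
    rintro ⟨σ, h1, h2⟩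
    exact h1 (hinj _ _ h2)
  obtain ⟨ε, hε, hball⟩ := Metric.isOpen_iff.mp hSf.isClosed.isOpen_compl _ hnot
  obtain ⟨q, hq1, hq2⟩ := exists_rat_btwn (show σ₀ α - ε < σ₀ α by linarith)
  obtain ⟨r, hr1, hr2⟩ := exists_rat_btwn (show σ₀ α < σ₀ α + ε by linarith)
  refine ⟨(α - q) * (α - r), ?_, fun σ hσ => ?_⟩
  · rw [map_mul, map_sub, map_sub, map_ratCast, map_ratCast]
    exact mul_neg_of_pos_of_neg (by linarith) (by linarith)
  · rw [map_mul, map_sub, map_sub, map_ratCast, map_ratCast]
    have h1 : σ α ∉ Metric.ball (σ₀ α) ε := fun h => hball h ⟨σ, hσ, rfl⟩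
    rw [Metric.mem_ball, Real.dist_eq, not_lt] at h1
    rcases le_total 0 (σ α - σ₀ α) with h2 | h2
    · rw [abs_of_nonneg h2] at h1
      exact mul_pos (by linarith) (by linarith)
    · rw [abs_of_nonpos h2] at h1
      exact mul_pos_of_neg_of_neg (by linarith) (by linarith)

end Pool.Agent.Helper8K9.DG
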